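import Mathlib

/-!
The two-sphere `S² ⊂ ℝ³` with the conformal Riemannian metric `e^{2φ} g₀`, where `g₀` is the
round metric: lengths, intrinsic distance, segments, critical points and property (O).
-/

namespace Pool.Agent.V11191.Opp

/-- Euclidean three-space. -/
abbrev E3 : Type := EuclideanSpace ℝ (Fin 3)

/-- `c`, restricted to `[0,1]`, is a `C¹` path in the unit sphere of `ℝ³` from `p` to `q`. -/
structure IsPath (c : ℝ → E3) (p q : E3) : Prop where
  /-- `c` is continuously differentiable -/
  c1 : ContDiff ℝ 1 c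
  /-- the path lies on the unit sphere -/
  mem : ∀ t ∈ Set.Icc (0 : ℝ) 1, c t ∈ Metric.sphere (0 : E3) 1
  /-- it starts at `p` -/
  start : c 0 = p
  /-- it ends at `q` -/
  finish : c 1 = q

/-- Length of a path for the Riemannian metric `e^{2φ} g₀`. -/
noncomputable def len (φ : E3 → ℝ) (c : ℝ → E3) : ℝ :=
  ∫ t in (0 : ℝ)..1, Real.exp (φ (c t)) * ‖deriv c t‖

/-- Intrinsic distance of the Riemannian metric `e^{2φ} g₀` on the sphere: the infimum of the
lengths of the `C¹` paths from `p` to `q`. -/
noncomputable def rho (φ : E3 → ℝ) (p q : E3) : ℝ :=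
  sInf {L | ∃ c, IsPath c p q ∧ L = len φ c}

/-- `c` is a segment from `p` to `q`, i.e. a shortest path, parametrized on `[0,1]`
proportionally to arc length: its speed in the metric `e^{2φ} g₀` is constant and equal to the
distance, so that its length is the distance. -/
structure IsSegment (φ : E3 → ℝ) (c : ℝ → E3) (p q : E3) : Prop where
  /-- it is a path from `p` to `q` -/
  path : IsPath c p q
  /-- it has constant speed, equal to the distance from `p` to `q` -/
  speed : ∀ t ∈ Set.Icc (0 : ℝ) 1, Real.exp (φ (c t)) * ‖deriv c t‖ = rho φ p q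

/-- `y` is critical with respect to `x`: for every unit tangent vector `τ` at `y` some segment
from `y` to `x` has at `y` a tangent direction making an angle at most `π/2` with `τ`. (Angles
for `e^{2φ} g₀` are the angles of the round metric, i.e. of `ℝ³`.) -/
def IsCritical (φ : E3 → ℝ) (x y : E3) : Prop :=
  ∀ τ : E3, ‖τ‖ = 1 → inner ℝ τ y = 0 →
    ∃ c, IsSegment φ c y x ∧ InnerProductGeometry.angle (deriv c 0) τ ≤ Real.pi / 2

/-- Property (O) of the surface `(S², e^{2φ} g₀)`: there are points `x ≠ y` with `y` critical with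
respect to `x` and two segments from `y` to `x` whose tangent directions at `y` make the
angle `π`. -/
def PropertyO (φ : E3 → ℝ) : Prop :=
  ∃ x ∈ Metric.sphere (0 : E3) 1, ∃ y ∈ Metric.sphere (0 : E3) 1, x ≠ y ∧ IsCritical φ x y ∧
    ∃ c₁ c₂, IsSegment φ c₁ y x ∧ IsSegment φ c₂ y x ∧
      InnerProductGeometry.angle (deriv c₁ 0) (deriv c₂ 0) = Real.pi

end Pool.Agent.V11191.Opp
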