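import Mathlib

open Complex

namespace Pool.Agent.V11191.Opp

/-- a root bound for the cubic `λ³ - s λ² + (s²/2) λ - s³/10` -/
theorem root_bound {z s : ℂ} (h : z ^ 3 = s * z ^ 2 - s ^ 2 / 2 * z + s ^ 3 / 10) :
    ‖z‖ ≤ 2 * ‖s‖ := by
  by_contra hcon
  push Not at hcon
  have hs0 : 0 ≤ ‖s‖ := norm_nonneg s
  have hz0 : 0 < ‖z‖ := by linarith
  have h1 : ‖z‖ ^ 3 ≤ ‖s‖ * ‖z‖ ^ 2 + ‖s‖ ^ 2 / 2 * ‖z‖ + ‖s‖ ^ 3 / 10 := by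
    have e : ‖z ^ 3‖ = ‖z‖ ^ 3 := norm_pow _ _
    rw [← e, h]
    calc ‖s * z ^ 2 - s ^ 2 / 2 * z + s ^ 3 / 10‖
        ≤ ‖s * z ^ 2 - s ^ 2 / 2 * z‖ + ‖s ^ 3 / 10‖ := norm_add_le _ _
      _ ≤ ‖s * z ^ 2‖ + ‖s ^ 2 / 2 * z‖ + ‖s ^ 3 / 10‖ := by
          gcongr; exact norm_sub_le _ _
      _ = _ := by simp
  set a := ‖z‖
  set b := ‖s‖
  have h2 : b ≤ a / 2 := by linarith
  have h3 : b * a ^ 2 ≤ a / 2 * a ^ 2 := by gcongr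
  have h4 : b ^ 2 / 2 * a ≤ (a / 2) ^ 2 / 2 * a := by gcongr
  have h5 : b ^ 3 / 10 ≤ (a / 2) ^ 3 / 10 := by gcongr
  have h6 : 0 < a ^ 3 := by positivity
  nlinarith

theorem alg_contra {z : Fin 3 → ℂ} (h1 : z 0 ^ 2 + z 1 ^ 2 + z 2 ^ 2 = 0)
    (h2 : z 0 ^ 5 + z 1 ^ 5 + z 2 ^ 5 = 0)
    (h3 : 102 * (z 0 ^ 3 + z 1 ^ 3 + z 2 ^ 3) =
      z 0 ^ 3 * (‖z 0‖ ^ 2 : ℝ) + z 1 ^ 3 * (‖z 1‖ ^ 2 : ℝ) + z 2 ^ 3 * (‖z 2‖ ^ 2 : ℝ))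
    (h4 : ‖z 0‖ ^ 2 + ‖z 1‖ ^ 2 + ‖z 2‖ ^ 2 = 2) : False := by
  set s := z 0 + z 1 + z 2 with hs
  set t := z 0 * z 1 * z 2 with ht
  have hq : z 0 * z 1 + z 1 * z 2 + z 0 * z 2 = s ^ 2 / 2 := by
    rw [hs]; linear_combination (-1 / 2 : ℂ) * h1
  have hroot : ∀ i, z i ^ 3 = s * z i ^ 2 - s ^ 2 / 2 * z i + t := by
    intro i
    rw [← hq, hs, ht]
    fin_cases i <;> (simp only [Fin.zero_eta, Fin.mk_one, Fin.reduceFinMk]; ring)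
  have h5 : s ^ 2 * (10 * t - s ^ 3) = 0 := by
    have e : z 0 ^ 5 + z 1 ^ 5 + z 2 ^ 5 = s ^ 5 - 5 * s ^ 3 * (s ^ 2 / 2) +
        5 * s * (s ^ 2 / 2) ^ 2 + 5 * s ^ 2 * t - 5 * (s ^ 2 / 2) * t := by
      rw [← hq, hs, ht]; ring
    rw [e] at h2
    linear_combination 4 * h2
  have hzero : t = 0 → s = 0 → False := by
    intro ht0 hs0
    have : ∀ i, z i = 0 := by
      intro i
      have := hroot i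
      rw [ht0, hs0] at this
      have h6 : z i ^ 3 = 0 := by rw [this]; ring
      exact pow_eq_zero_iff (three_ne_zero) |>.1 h6
    rw [this 0, this 1, this 2] at h4
    norm_num at h4
  rcases mul_eq_zero.1 h5 with h6 | h6
  · have hs0 : s = 0 := pow_eq_zero_iff (two_ne_zero) |>.1 h6
    have hr : ∀ i, z i ^ 3 = t := by
      intro i
      rw [hroot i, hs0]; ring
    rw [hr 0, hr 1, hr 2] at h3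
    have h7 : t * (306 - ((‖z 0‖ ^ 2 + ‖z 1‖ ^ 2 + ‖z 2‖ ^ 2 : ℝ) : ℂ)) = 0 := by
      push_cast at h3 ⊢
      linear_combination h3
    rw [h4] at h7
    have h8 : t = 0 := by
      rcases mul_eq_zero.1 h7 with h | h
      · exact h
      · exfalso
        norm_num at h
    exact hzero h8 hs0
  · have ht1 : t = s ^ 3 / 10 := by linear_combination h6 / 10
    have hb : ∀ i, ‖z i‖ ≤ 2 * ‖s‖ := by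
      intro i
      apply root_bound
      rw [hroot i, ht1]
    have hp3 : z 0 ^ 3 + z 1 ^ 3 + z 2 ^ 3 = -(s ^ 3 / 5) := by
      have e : z 0 ^ 3 + z 1 ^ 3 + z 2 ^ 3 = s ^ 3 - 3 * s * (s ^ 2 / 2) + 3 * t := by
        rw [← hq, hs, ht]; ring
      rw [e, ht1]; ring
    rw [hp3] at h3
    have hX : ‖z 0 ^ 3 * (‖z 0‖ ^ 2 : ℝ) + z 1 ^ 3 * (‖z 1‖ ^ 2 : ℝ) +
        z 2 ^ 3 * (‖z 2‖ ^ 2 : ℝ)‖ ≤ 16 * ‖s‖ ^ 3 := by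
      have hi : ∀ i, ‖z i ^ 3 * ((‖z i‖ ^ 2 : ℝ) : ℂ)‖ ≤ 8 * ‖s‖ ^ 3 * ‖z i‖ ^ 2 := by
        intro i
        rw [norm_mul, norm_pow, Complex.norm_real, Real.norm_eq_abs,
          abs_of_nonneg (sq_nonneg _)]
        have : ‖z i‖ ^ 3 ≤ (2 * ‖s‖) ^ 3 := pow_le_pow_left₀ (norm_nonneg _) (hb i) 3
        have h8 : ‖z i‖ ^ 3 ≤ 8 * ‖s‖ ^ 3 := by nlinarith
        gcongr
      calc ‖z 0 ^ 3 * (‖z 0‖ ^ 2 : ℝ) + z 1 ^ 3 * (‖z 1‖ ^ 2 : ℝ) +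
          z 2 ^ 3 * (‖z 2‖ ^ 2 : ℝ)‖ ≤ ‖z 0 ^ 3 * ((‖z 0‖ ^ 2 : ℝ) : ℂ)‖ +
            ‖z 1 ^ 3 * ((‖z 1‖ ^ 2 : ℝ) : ℂ)‖ + ‖z 2 ^ 3 * ((‖z 2‖ ^ 2 : ℝ) : ℂ)‖ :=
            norm_add₃_le
        _ ≤ 8 * ‖s‖ ^ 3 * ‖z 0‖ ^ 2 + 8 * ‖s‖ ^ 3 * ‖z 1‖ ^ 2 + 8 * ‖s‖ ^ 3 * ‖z 2‖ ^ 2 := by
            gcongr <;> exact hi _
        _ = 8 * ‖s‖ ^ 3 * (‖z 0‖ ^ 2 + ‖z 1‖ ^ 2 + ‖z 2‖ ^ 2) := by ring
        _ = 16 * ‖s‖ ^ 3 := by rw [h4]; ring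
    rw [← h3] at hX
    have h9 : ‖(102 : ℂ) * -(s ^ 3 / 5)‖ = 102 / 5 * ‖s‖ ^ 3 := by
      rw [norm_mul, norm_neg, norm_div, norm_pow]
      norm_num
      ring
    rw [h9] at hX
    have h10 : ‖s‖ ^ 3 ≤ 0 := by linarith
    have h11 : ‖s‖ = 0 := by
      by_contra hne
      have : 0 < ‖s‖ := lt_of_le_of_ne (norm_nonneg _) (Ne.symm hne)
      have : 0 < ‖s‖ ^ 3 := by positivity
      linarith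
    have hs0 : s = 0 := norm_eq_zero.1 h11
    refine hzero ?_ hs0
    rw [ht1, hs0]; ring

end Pool.Agent.V11191.Opp
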