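import Mathlib
import Pool.Agent.V11191.Opp.Defs

open scoped RealInnerProductSpace

namespace Pool.Agent.V11191.Opp

/-- infinitesimal rotation in the plane of `a, b` -/
noncomputable def Agen (a b : E3) : E3 →L[ℝ] E3 :=
  (innerSL ℝ a).smulRight b - (innerSL ℝ b).smulRight a

theorem Agen_apply (a b p : E3) : Agen a b p = ⟪a, p⟫ • b - ⟪b, p⟫ • a := by
  simp [Agen]

/-- rotation by the angle `s` in the plane of `a, b` -/
noncomputable def rot (a b : E3) (s : ℝ) (p : E3) : E3 :=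
  p + (Real.cos s - 1) • (⟪a, p⟫ • a + ⟪b, p⟫ • b) + Real.sin s • (⟪a, p⟫ • b - ⟪b, p⟫ • a)

variable {a b : E3}

theorem rot_zero (p : E3) : rot a b 0 p = p := by simp [rot]

theorem rot_inner (ha : ‖a‖ = 1) (hb : ‖b‖ = 1) (hab : ⟪a, b⟫ = 0) (s : ℝ) (p q : E3) :
    ⟪rot a b s p, rot a b s q⟫ = ⟪p, q⟫ := by
  have haa : ⟪a, a⟫ = 1 := by rw [real_inner_self_eq_norm_sq, ha]; norm_num
  have hbb : ⟪b, b⟫ = 1 := by rw [real_inner_self_eq_norm_sq, hb]; norm_num
  have hba : ⟪b, a⟫ = 0 := by rw [real_inner_comm]; exact hab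
  have hcs : Real.cos s ^ 2 + Real.sin s ^ 2 = 1 := by
    have := Real.sin_sq_add_cos_sq s; linarith
  simp only [rot, inner_add_left, inner_add_right, inner_smul_left, inner_smul_right,
    inner_sub_left, inner_sub_right, haa, hbb, hab, hba, RCLike.conj_to_real]
  rw [real_inner_comm a p, real_inner_comm b p]
  linear_combination (⟪a, p⟫ * ⟪a, q⟫ + ⟪b, p⟫ * ⟪b, q⟫) * hcs

theorem rot_norm (ha : ‖a‖ = 1) (hb : ‖b‖ = 1) (hab : ⟪a, b⟫ = 0) (s : ℝ) (p : E3) :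
    ‖rot a b s p‖ = ‖p‖ := by
  have h := rot_inner ha hb hab s p p
  rw [real_inner_self_eq_norm_sq, real_inner_self_eq_norm_sq] at h
  exact (pow_left_inj₀ (norm_nonneg _) (norm_nonneg _) two_ne_zero).1 h

theorem rot_add (s : ℝ) (p q : E3) : rot a b s (p + q) = rot a b s p + rot a b s q := by
  simp only [rot, inner_add_right]
  module

theorem rot_smul (s r : ℝ) (p : E3) : rot a b s (r • p) = r • rot a b s p := by
  simp only [rot, inner_smul_right]
  module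

/-- the generator commutes with the rotation -/
theorem Agen_rot (ha : ‖a‖ = 1) (hb : ‖b‖ = 1) (hab : ⟪a, b⟫ = 0) (s : ℝ) (p : E3) :
    Agen a b (rot a b s p) = rot a b s (Agen a b p) := by
  have haa : ⟪a, a⟫ = 1 := by rw [real_inner_self_eq_norm_sq, ha]; norm_num
  have hbb : ⟪b, b⟫ = 1 := by rw [real_inner_self_eq_norm_sq, hb]; norm_num
  have hba : ⟪b, a⟫ = 0 := by rw [real_inner_comm]; exact hab
  simp only [Agen_apply, rot, inner_add_right, inner_smul_right,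
    inner_sub_right, haa, hbb, hab, hba]
  module

theorem rot_hasDerivAt (ha : ‖a‖ = 1) (hb : ‖b‖ = 1) (hab : ⟪a, b⟫ = 0) (s : ℝ) (p : E3) :
    HasDerivAt (fun s => rot a b s p) (Agen a b (rot a b s p)) s := by
  have haa : ⟪a, a⟫ = 1 := by rw [real_inner_self_eq_norm_sq, ha]; norm_num
  have hbb : ⟪b, b⟫ = 1 := by rw [real_inner_self_eq_norm_sq, hb]; norm_num
  have hba : ⟪b, a⟫ = 0 := by rw [real_inner_comm]; exact hab
  have h1 : HasDerivAt (fun s => rot a b s p)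
      ((-Real.sin s) • (⟪a, p⟫ • a + ⟪b, p⟫ • b) +
        Real.cos s • (⟪a, p⟫ • b - ⟪b, p⟫ • a)) s := by
    unfold rot
    have e1 := ((Real.hasDerivAt_cos s).sub_const 1).smul_const (⟪a, p⟫ • a + ⟪b, p⟫ • b)
    have e2 := (Real.hasDerivAt_sin s).smul_const (⟪a, p⟫ • b - ⟪b, p⟫ • a)
    exact (e1.const_add p).add e2
  refine h1.congr_deriv ?_
  simp only [Agen_apply, rot, inner_add_right, inner_smul_right,
    inner_sub_right, haa, hbb, hab, hba]
  module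

theorem Agen_norm_le (ha : ‖a‖ = 1) (hb : ‖b‖ = 1) (hab : ⟪a, b⟫ = 0) (p : E3) :
    ‖Agen a b p‖ ≤ ‖p‖ := by
  have haa : ⟪a, a⟫ = 1 := by rw [real_inner_self_eq_norm_sq, ha]; norm_num
  have hbb : ⟪b, b⟫ = 1 := by rw [real_inner_self_eq_norm_sq, hb]; norm_num
  have hba : ⟪b, a⟫ = 0 := by rw [real_inner_comm]; exact hab
  have h1 : ‖Agen a b p‖ ^ 2 = ⟪a, p⟫ ^ 2 + ⟪b, p⟫ ^ 2 := by
    rw [← real_inner_self_eq_norm_sq, Agen_apply]
    simp only [inner_sub_left, inner_sub_right, inner_smul_left, inner_smul_right, haa, hbb, hab,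
      hba, RCLike.conj_to_real]
    ring
  have h2 : 0 ≤ ‖p - ⟪a, p⟫ • a - ⟪b, p⟫ • b‖ ^ 2 := sq_nonneg _
  rw [← real_inner_self_eq_norm_sq] at h2
  simp only [inner_sub_left, inner_sub_right, inner_smul_left, inner_smul_right, haa, hbb, hab,
      hba, RCLike.conj_to_real, real_inner_comm a p, real_inner_comm b p] at h2
  rw [real_inner_self_eq_norm_sq] at h2
  have h3 : ‖Agen a b p‖ ^ 2 ≤ ‖p‖ ^ 2 := by rw [h1]; nlinarith
  exact le_of_pow_le_pow_left₀ two_ne_zero (norm_nonneg _) h3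

/-- derivative of a rotated curve -/
theorem rot_curve (ha : ‖a‖ = 1) (hb : ‖b‖ = 1) (hab : ⟪a, b⟫ = 0) {ψ : ℝ → ℝ} {ψ' : ℝ}
    {γ : ℝ → E3} {v : E3} {t : ℝ} (hψ : HasDerivAt ψ ψ' t) (hγ : HasDerivAt γ v t) :
    HasDerivAt (fun t => rot a b (ψ t) (γ t)) (rot a b (ψ t) (v + ψ' • Agen a b (γ t))) t := by
  have hin : ∀ w : E3, HasDerivAt (fun t => ⟪w, γ t⟫) ⟪w, v⟫ t := fun w => by
    have := (hasDerivAt_const t w).inner ℝ hγ
    simpa using this
  have hc : HasDerivAt (fun t => Real.cos (ψ t)) (-Real.sin (ψ t) * ψ') t :=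
    (Real.hasDerivAt_cos (ψ t)).comp t hψ
  have hs : HasDerivAt (fun t => Real.sin (ψ t)) (Real.cos (ψ t) * ψ') t :=
    (Real.hasDerivAt_sin (ψ t)).comp t hψ
  have h1 : HasDerivAt (fun t => rot a b (ψ t) (γ t))
      (v + ((Real.cos (ψ t) - 1) • (⟪a, v⟫ • a + ⟪b, v⟫ • b) +
        (-Real.sin (ψ t) * ψ') • (⟪a, γ t⟫ • a + ⟪b, γ t⟫ • b)) +
        (Real.sin (ψ t) • (⟪a, v⟫ • b - ⟪b, v⟫ • a) +
        (Real.cos (ψ t) * ψ') • (⟪a, γ t⟫ • b - ⟪b, γ t⟫ • a))) t := by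
    unfold rot
    have e1 := (hc.sub_const 1).smul (((hin a).smul_const a).add ((hin b).smul_const b))
    have e2 := hs.smul (((hin a).smul_const b).sub ((hin b).smul_const a))
    exact (hγ.add e1).add e2
  refine h1.congr_deriv ?_
  rw [rot_add, rot_smul, ← Agen_rot ha hb hab]
  have haa : ⟪a, a⟫ = 1 := by rw [real_inner_self_eq_norm_sq, ha]; norm_num
  have hbb : ⟪b, b⟫ = 1 := by rw [real_inner_self_eq_norm_sq, hb]; norm_num
  have hba : ⟪b, a⟫ = 0 := by rw [real_inner_comm]; exact hab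
  simp only [Agen_apply, rot, inner_add_right, inner_smul_right,
    inner_sub_right, haa, hbb, hab, hba]
  module

end Pool.Agent.V11191.Opp
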