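import Mathlib
import Pool.Agent.V11191.Opp.Rot

open scoped RealInnerProductSpace Topology Interval
open MeasureTheory

namespace Pool.Agent.V11191.Opp

theorem deriv_param_integral {F F' : ℝ → ℝ → ℝ} (hF : Continuous (Function.uncurry F))
    (hF' : Continuous (Function.uncurry F'))
    (hd : ∀ s t, HasDerivAt (fun s => F s t) (F' s t) s) :
    HasDerivAt (fun s => ∫ t in (0 : ℝ)..1, F s t) (∫ t in (0 : ℝ)..1, F' 0 t) 0 := by
  have hcomp : IsCompact (Set.Icc (-1 : ℝ) 1 ×ˢ Set.Icc (0 : ℝ) 1) :=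
    isCompact_Icc.prod isCompact_Icc
  obtain ⟨C, hC⟩ := hcomp.exists_bound_of_continuousOn hF'.continuousOn
  have hs : Set.Icc (-1 : ℝ) 1 ∈ 𝓝 (0 : ℝ) := Icc_mem_nhds (by norm_num) (by norm_num)
  refine (intervalIntegral.hasDerivAt_integral_of_dominated_loc_of_deriv_le
    (F := F) (F' := F') (bound := fun _ => C) hs ?_ ?_ ?_ ?_ ?_ ?_).2
  · refine Filter.Eventually.of_forall fun s => ?_
    have : Continuous (F s) := hF.comp (by fun_prop : Continuous fun t => (s, t))
    exact this.aestronglyMeasurable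
  · have : Continuous (F 0) := hF.comp (by fun_prop : Continuous fun t => ((0 : ℝ), t))
    exact this.intervalIntegrable _ _
  · have : Continuous (F' 0) := hF'.comp (by fun_prop : Continuous fun t => ((0 : ℝ), t))
    exact this.aestronglyMeasurable
  · refine Filter.Eventually.of_forall fun t ht s hs => ?_
    rw [Set.uIoc_of_le (by norm_num)] at ht
    exact hC (s, t) ⟨hs, ⟨ht.1.le, ht.2⟩⟩
  · exact intervalIntegrable_const
  · exact Filter.Eventually.of_forall fun t _ s _ => hd s t

variable {φ : E3 → ℝ}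

theorem len_nonneg (φ : E3 → ℝ) (c : ℝ → E3) : 0 ≤ len φ c :=
  intervalIntegral.integral_nonneg (by norm_num) fun _ _ => by positivity

theorem rho_le {c : ℝ → E3} {p q : E3} (hc : IsPath c p q) : rho φ p q ≤ len φ c := by
  refine csInf_le ⟨0, ?_⟩ ⟨c, hc, rfl⟩
  rintro L ⟨c', _, rfl⟩
  exact len_nonneg _ _

theorem rho_nonneg (φ : E3 → ℝ) (p q : E3) : 0 ≤ rho φ p q :=
  Real.sInf_nonneg (by rintro L ⟨c', _, rfl⟩; exact len_nonneg _ _)

/-- energy is at least the square of the distance -/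
theorem energy_ge (hφ : Continuous φ) {c : ℝ → E3} {p q : E3} (hc : IsPath c p q) :
    rho φ p q ^ 2 ≤ ∫ t in (0 : ℝ)..1, (Real.exp (φ (c t)) * ‖deriv c t‖) ^ 2 := by
  have hd : Continuous (deriv c) := hc.c1.continuous_deriv le_rfl
  have hcc : Continuous c := hc.c1.continuous
  have hf : Continuous fun t => Real.exp (φ (c t)) * ‖deriv c t‖ := by fun_prop
  set d := rho φ p q with hdd
  have h0 : 0 ≤ d := rho_nonneg _ _ _
  have h1 : d ≤ ∫ t in (0 : ℝ)..1, Real.exp (φ (c t)) * ‖deriv c t‖ := rho_le hc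
  have h2 : 0 ≤ ∫ t in (0 : ℝ)..1, (Real.exp (φ (c t)) * ‖deriv c t‖ - d) ^ 2 :=
    intervalIntegral.integral_nonneg (by norm_num) fun _ _ => sq_nonneg _
  have h3 : (∫ t in (0 : ℝ)..1, (Real.exp (φ (c t)) * ‖deriv c t‖ - d) ^ 2) =
      (∫ t in (0 : ℝ)..1, (Real.exp (φ (c t)) * ‖deriv c t‖) ^ 2) -
        2 * d * (∫ t in (0 : ℝ)..1, Real.exp (φ (c t)) * ‖deriv c t‖) + d ^ 2 := by
    have e1 : ∀ t, (Real.exp (φ (c t)) * ‖deriv c t‖ - d) ^ 2 =
        (Real.exp (φ (c t)) * ‖deriv c t‖) ^ 2 -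
          2 * d * (Real.exp (φ (c t)) * ‖deriv c t‖) + d ^ 2 := fun t => by ring
    simp only [e1]
    rw [intervalIntegral.integral_add, intervalIntegral.integral_sub,
      intervalIntegral.integral_const_mul]
    · simp
    · exact (hf.pow 2).intervalIntegrable _ _
    · exact (continuous_const.mul hf).intervalIntegrable _ _
    · exact ((hf.pow 2).sub (continuous_const.mul hf)).intervalIntegrable _ _
    · exact intervalIntegrable_const
  rw [h3] at h2
  nlinarith

/-- The Euler–Lagrange equation, weak form. -/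
theorem weak_el (hφ : ContDiff ℝ 1 φ) {γ : ℝ → E3} {p q : E3} (hγ : IsSegment φ γ p q)
    {a b : E3} (ha : ‖a‖ = 1) (hb : ‖b‖ = 1) (hab : ⟪a, b⟫ = 0)
    {ψ : ℝ → ℝ} (hψ : ContDiff ℝ 1 ψ) (h0 : ψ 0 = 0) (h1 : ψ 1 = 0) :
    ∫ t in (0 : ℝ)..1, (ψ t * (Real.exp (2 * φ (γ t)) * fderiv ℝ φ (γ t) (Agen a b (γ t)) *
      ‖deriv γ t‖ ^ 2) + deriv ψ t * (Real.exp (2 * φ (γ t)) *
        ⟪deriv γ t, Agen a b (γ t)⟫)) = 0 := by
  have hγ1 := hγ.path.c1
  have hγc : Continuous γ := hγ1.continuous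
  have hγd : Continuous (deriv γ) := hγ1.continuous_deriv le_rfl
  have hψc : Continuous ψ := hψ.continuous
  have hψd : Continuous (deriv ψ) := hψ.continuous_deriv le_rfl
  have hφc : Continuous φ := hφ.continuous
  have hφd : Continuous (fderiv ℝ φ) := hφ.continuous_fderiv one_ne_zero
  have hAc : Continuous (fun p : E3 => Agen a b p) := (Agen a b).continuous
  have hrotc : Continuous (fun x : ℝ × ℝ => rot a b (x.1 * ψ x.2) (γ x.2)) := by
    unfold rot
    fun_prop
  set F : ℝ → ℝ → ℝ := fun s t => Real.exp (2 * φ (rot a b (s * ψ t) (γ t))) *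
    ‖deriv γ t + (s * deriv ψ t) • Agen a b (γ t)‖ ^ 2 with hF
  set F' : ℝ → ℝ → ℝ := fun s t =>
    (Real.exp (2 * φ (rot a b (s * ψ t) (γ t))) *
      (2 * (ψ t * fderiv ℝ φ (rot a b (s * ψ t) (γ t))
        (Agen a b (rot a b (s * ψ t) (γ t)))))) *
    ‖deriv γ t + (s * deriv ψ t) • Agen a b (γ t)‖ ^ 2 +
    Real.exp (2 * φ (rot a b (s * ψ t) (γ t))) *
      (2 * ⟪deriv γ t + (s * deriv ψ t) • Agen a b (γ t), deriv ψ t • Agen a b (γ t)⟫) with hF'
  have hFc : Continuous (Function.uncurry F) := by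
    simp only [hF, Function.uncurry_def]
    fun_prop
  have hF'c : Continuous (Function.uncurry F') := by
    simp only [hF', Function.uncurry_def]
    have : Continuous (fun x : ℝ × ℝ => fderiv ℝ φ (rot a b (x.1 * ψ x.2) (γ x.2))
        (Agen a b (rot a b (x.1 * ψ x.2) (γ x.2)))) :=
      (hφd.comp hrotc).clm_apply (hAc.comp hrotc)
    fun_prop
  have hFd : ∀ s t, HasDerivAt (fun s => F s t) (F' s t) s := by
    intro s t
    have r1 : HasDerivAt (fun s : ℝ => s * ψ t) (ψ t) s := by
      simpa using (hasDerivAt_id s).mul_const (ψ t)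
    have r2 : HasDerivAt (fun s => rot a b (s * ψ t) (γ t))
        (ψ t • Agen a b (rot a b (s * ψ t) (γ t))) s := by
      have := HasDerivAt.scomp (g₁ := fun s => rot a b s (γ t)) s
        (rot_hasDerivAt ha hb hab (s * ψ t) (γ t)) r1
      exact this
    have r3 : HasDerivAt (fun s => φ (rot a b (s * ψ t) (γ t)))
        (ψ t * fderiv ℝ φ (rot a b (s * ψ t) (γ t))
        (Agen a b (rot a b (s * ψ t) (γ t)))) s := by
      have := ((hφ.differentiable one_ne_zero) (rot a b (s * ψ t) (γ t))).hasFDerivAt.comp_hasDerivAt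
        s r2
      refine HasDerivAt.congr_deriv this ?_
      rw [map_smul, smul_eq_mul]
    have r4 := (r3.const_mul 2).exp
    have r5 : HasDerivAt (fun s : ℝ => deriv γ t + (s * deriv ψ t) • Agen a b (γ t))
        (deriv ψ t • Agen a b (γ t)) s := by
      have : HasDerivAt (fun s : ℝ => s * deriv ψ t) (deriv ψ t) s := by
        simpa using (hasDerivAt_id s).mul_const (deriv ψ t)
      exact (this.smul_const _).const_add _
    have r6 := r5.norm_sq
    exact r4.mul r6
  have hE := deriv_param_integral hFc hF'c hFd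
  -- the energy has a minimum at 0
  have hmin : ∀ s, (∫ t in (0 : ℝ)..1, F 0 t) ≤ ∫ t in (0 : ℝ)..1, F s t := by
    intro s
    have hder : ∀ t, HasDerivAt (fun t => rot a b (s * ψ t) (γ t))
        (rot a b (s * ψ t) (deriv γ t + (s * deriv ψ t) • Agen a b (γ t))) t := by
      intro t
      exact rot_curve ha hb hab
        (((hψ.differentiable one_ne_zero) t).hasDerivAt.const_mul s)
        ((hγ1.differentiable one_ne_zero) t).hasDerivAt
    have hpath : IsPath (fun t => rot a b (s * ψ t) (γ t)) p q := by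
      refine ⟨?_, ?_, ?_, ?_⟩
      · rw [contDiff_one_iff_deriv]
        refine ⟨fun t => (hder t).differentiableAt, ?_⟩
        have : deriv (fun t => rot a b (s * ψ t) (γ t)) =
            fun t => rot a b (s * ψ t) (deriv γ t + (s * deriv ψ t) • Agen a b (γ t)) := by
          funext t; exact (hder t).deriv
        rw [this]
        unfold rot
        fun_prop
      · intro t ht
        have := hγ.path.mem t ht
        rw [mem_sphere_zero_iff_norm] at this ⊢
        rw [rot_norm ha hb hab, this]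
      · simp [h0, rot_zero, hγ.path.start]
      · simp [h1, rot_zero, hγ.path.finish]
    have h2 := energy_ge hφc hpath
    have h3 : (∫ t in (0 : ℝ)..1, (Real.exp (φ (rot a b (s * ψ t) (γ t))) *
        ‖deriv (fun t => rot a b (s * ψ t) (γ t)) t‖) ^ 2) = ∫ t in (0 : ℝ)..1, F s t := by
      congr 1
      funext t
      rw [(hder t).deriv, rot_norm ha hb hab, mul_pow, ← Real.exp_nat_mul]
      norm_num [hF]
    have h4 : (∫ t in (0 : ℝ)..1, F 0 t) = rho φ p q ^ 2 := by
      have : ∀ t ∈ Set.uIcc (0 : ℝ) 1, F 0 t = rho φ p q ^ 2 := by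
        intro t ht
        rw [Set.uIcc_of_le (by norm_num)] at ht
        rw [← hγ.speed t ht, mul_pow, ← Real.exp_nat_mul]
        simp [hF, rot_zero]
      rw [intervalIntegral.integral_congr this]
      simp
    rw [h4, ← h3]
    exact h2
  have hloc : IsLocalMin (fun s => ∫ t in (0 : ℝ)..1, F s t) 0 :=
    Filter.Eventually.of_forall hmin
  have hzero := hloc.hasDerivAt_eq_zero hE
  have h5 : (∫ t in (0 : ℝ)..1, F' 0 t) = 2 * ∫ t in (0 : ℝ)..1,
      (ψ t * (Real.exp (2 * φ (γ t)) * fderiv ℝ φ (γ t) (Agen a b (γ t)) *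
      ‖deriv γ t‖ ^ 2) + deriv ψ t * (Real.exp (2 * φ (γ t)) *
        ⟪deriv γ t, Agen a b (γ t)⟫)) := by
    rw [← intervalIntegral.integral_const_mul]
    congr 1
    funext t
    simp only [hF', zero_mul, rot_zero, zero_smul, add_zero, inner_smul_right]
    ring
  rw [h5] at hzero
  linarith

/-- The Euler–Lagrange equation in integrated form (du Bois-Reymond). -/
theorem el (hφ : ContDiff ℝ 1 φ) {γ : ℝ → E3} {p q : E3} (hγ : IsSegment φ γ p q)
    {a b : E3} (ha : ‖a‖ = 1) (hb : ‖b‖ = 1) (hab : ⟪a, b⟫ = 0) {t : ℝ}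
    (ht : t ∈ Set.Icc (0 : ℝ) 1) :
    Real.exp (2 * φ (γ t)) * ⟪deriv γ t, Agen a b (γ t)⟫ =
      Real.exp (2 * φ (γ 0)) * ⟪deriv γ 0, Agen a b (γ 0)⟫ +
      ∫ s in (0 : ℝ)..t, (Real.exp (2 * φ (γ s)) * fderiv ℝ φ (γ s) (Agen a b (γ s)) *
      ‖deriv γ s‖ ^ 2) := by
  have hγ1 := hγ.path.c1
  have hγc : Continuous γ := hγ1.continuous
  have hγd : Continuous (deriv γ) := hγ1.continuous_deriv le_rfl
  have hφc : Continuous φ := hφ.continuous
  have hφd : Continuous (fderiv ℝ φ) := hφ.continuous_fderiv one_ne_zero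
  have hAc : Continuous (fun p : E3 => Agen a b p) := (Agen a b).continuous
  set J : ℝ → ℝ := fun t => Real.exp (2 * φ (γ t)) * ⟪deriv γ t, Agen a b (γ t)⟫ with hJ
  set K : ℝ → ℝ := fun s => Real.exp (2 * φ (γ s)) * fderiv ℝ φ (γ s) (Agen a b (γ s)) *
      ‖deriv γ s‖ ^ 2 with hK
  have hJc : Continuous J := by
    simp only [hJ]; fun_prop
  have hKc : Continuous K := by
    simp only [hK]
    have : Continuous (fun s => fderiv ℝ φ (γ s) (Agen a b (γ s))) :=
      (hφd.comp hγc).clm_apply (hAc.comp hγc)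
    fun_prop
  set G : ℝ → ℝ := fun t => ∫ s in (0 : ℝ)..t, K s with hG
  have hGd : ∀ t, HasDerivAt G (K t) t := fun t =>
    intervalIntegral.integral_hasDerivAt_right (hKc.intervalIntegrable _ _)
      (hKc.stronglyMeasurableAtFilter _ _) hKc.continuousAt
  have hGc : Continuous G := continuous_iff_continuousAt.2 fun t => (hGd t).continuousAt
  set P : ℝ → ℝ := fun t => J t - G t with hP
  have hPc : Continuous P := hJc.sub hGc
  set m : ℝ := ∫ t in (0 : ℝ)..1, P t with hm
  set ψ : ℝ → ℝ := fun t => ∫ s in (0 : ℝ)..t, (P s - m) with hψ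
  have hPm : Continuous fun s => P s - m := hPc.sub continuous_const
  have hψd : ∀ t, HasDerivAt ψ (P t - m) t := fun t =>
    intervalIntegral.integral_hasDerivAt_right (hPm.intervalIntegrable _ _)
      (hPm.stronglyMeasurableAtFilter _ _) hPm.continuousAt
  have hψ1 : ContDiff ℝ 1 ψ := by
    rw [contDiff_one_iff_deriv]
    refine ⟨fun t => (hψd t).differentiableAt, ?_⟩
    have : deriv ψ = fun t => P t - m := by funext t; exact (hψd t).deriv
    rw [this]; exact hPm
  have hψ0 : ψ 0 = 0 := by simp [hψ]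
  have hψ11 : ψ 1 = 0 := by
    simp only [hψ]
    rw [intervalIntegral.integral_sub (hPc.intervalIntegrable _ _) intervalIntegrable_const]
    simp [hm]
  have hw := weak_el hφ hγ ha hb hab hψ1 hψ0 hψ11
  have hψder : deriv ψ = fun t => P t - m := by funext t; exact (hψd t).deriv
  have hw' : ∫ t in (0 : ℝ)..1, (ψ t * K t + (P t - m) * J t) = 0 := by
    rw [← hw]
    congr 1
    funext t
    rw [hψder]
  have hψc : Continuous ψ := hψ1.continuous
  have hparts : ∫ t in (0 : ℝ)..1, ψ t * K t = - ∫ t in (0 : ℝ)..1, (P t - m) * G t := by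
    have := intervalIntegral.integral_mul_deriv_eq_deriv_mul (a := 0) (b := 1)
      (u := ψ) (v := G) (u' := fun t => P t - m) (v' := K)
      (fun t _ => hψd t) (fun t _ => hGd t) (hPm.intervalIntegrable _ _)
      (hKc.intervalIntegrable _ _)
    rw [this, hψ0, hψ11]
    ring
  have hint : ∫ t in (0 : ℝ)..1, (P t - m) ^ 2 = 0 := by
    have e1 : ∫ t in (0 : ℝ)..1, (ψ t * K t + (P t - m) * J t) =
        (∫ t in (0 : ℝ)..1, ψ t * K t) + ∫ t in (0 : ℝ)..1, (P t - m) * J t :=
      intervalIntegral.integral_add ((hψc.mul hKc).intervalIntegrable _ _)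
        ((hPm.mul hJc).intervalIntegrable _ _)
    rw [e1, hparts] at hw'
    have e2 : ∫ t in (0 : ℝ)..1, (P t - m) * P t =
        (∫ t in (0 : ℝ)..1, (P t - m) * J t) - ∫ t in (0 : ℝ)..1, (P t - m) * G t := by
      rw [← intervalIntegral.integral_sub (f := fun t => (P t - m) * J t)
        (g := fun t => (P t - m) * G t) ((hPm.mul hJc).intervalIntegrable _ _)
        ((hPm.mul hGc).intervalIntegrable _ _)]
      congr 1
      funext t
      simp only [hP]
      ring
    have e3 : ∫ t in (0 : ℝ)..1, (P t - m) ^ 2 =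
        (∫ t in (0 : ℝ)..1, (P t - m) * P t) - m * ∫ t in (0 : ℝ)..1, (P t - m) := by
      rw [← intervalIntegral.integral_const_mul, ← intervalIntegral.integral_sub
        (f := fun t => (P t - m) * P t) (g := fun t => m * (P t - m))
        ((hPm.mul hPc).intervalIntegrable _ _) ((continuous_const.mul hPm).intervalIntegrable _ _)]
      congr 1
      funext t
      ring
    have e4 : ∫ t in (0 : ℝ)..1, (P t - m) = 0 := hψ11
    rw [e3, e2, e4]
    linarith
  -- P is constant on [0,1]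
  have hconst : ∀ t ∈ Set.Icc (0 : ℝ) 1, P t = m := by
    intro t ht
    by_contra hne
    have hpos : 0 < ∫ t in (0 : ℝ)..1, (P t - m) ^ 2 := by
      refine intervalIntegral.integral_pos (by norm_num) ((hPm.pow 2).continuousOn)
        (fun x _ => sq_nonneg _) ⟨t, ht, ?_⟩
      have : P t - m ≠ 0 := sub_ne_zero.2 hne
      positivity
    rw [hint] at hpos
    exact lt_irrefl _ hpos
  have h1 := hconst t ht
  have h2 := hconst 0 ⟨le_rfl, by norm_num⟩
  have h3 : G 0 = 0 := by simp [hG]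
  have h4 : J t - G t = J 0 - G 0 := by
    have : P t = P 0 := by rw [h1, h2]
    simpa [hP] using this
  rw [h3] at h4
  have : J t = J 0 + G t := by linarith
  exact this

end Pool.Agent.V11191.Opp
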