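import Mathlib
import Pool.Agent.V11191.Opp.EL

open scoped RealInnerProductSpace Topology Interval
open MeasureTheory

namespace Pool.Agent.V11191.Opp

/-- Polar coordinates along a planar curve. -/
theorem polar {X Y : ℝ → ℝ} (hX : ContDiff ℝ 1 X) (hY : ContDiff ℝ 1 Y)
    (hpos : ∀ t ∈ Set.Icc (0 : ℝ) 1, 0 < X t ^ 2 + Y t ^ 2) (hX0 : 0 < X 0) (hY0 : Y 0 = 0)
    {A : ℝ → ℝ}
    (hA : A = fun t => ∫ s in (0 : ℝ)..t, (X s * deriv Y s - Y s * deriv X s) /
      (X s ^ 2 + Y s ^ 2)) :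
    ∀ t ∈ Set.Icc (0 : ℝ) 1, X t = Real.sqrt (X t ^ 2 + Y t ^ 2) * Real.cos (A t) ∧
      Y t = Real.sqrt (X t ^ 2 + Y t ^ 2) * Real.sin (A t) := by
  have hXc := hX.continuous
  have hYc := hY.continuous
  have hXd : Continuous (deriv X) := hX.continuous_deriv le_rfl
  have hYd : Continuous (deriv Y) := hY.continuous_deriv le_rfl
  set f : ℝ → ℝ := fun s => (X s * deriv Y s - Y s * deriv X s) / (X s ^ 2 + Y s ^ 2) with hf
  have hnum : Continuous fun s => X s * deriv Y s - Y s * deriv X s := by fun_prop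
  have hden : Continuous fun s => X s ^ 2 + Y s ^ 2 := by fun_prop
  have hmeas : Measurable f := hnum.measurable.div hden.measurable
  have hcont : ∀ t ∈ Set.Icc (0 : ℝ) 1, ContinuousAt f t := fun t ht =>
    hnum.continuousAt.div hden.continuousAt (hpos t ht).ne'
  have hint : ∀ t ∈ Set.Icc (0 : ℝ) 1, IntervalIntegrable f volume 0 t := by
    intro t ht
    refine ContinuousOn.intervalIntegrable fun s hs => ?_
    rw [Set.uIcc_of_le ht.1] at hs
    exact (hcont s ⟨hs.1, hs.2.trans ht.2⟩).continuousWithinAt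
  have hAd : ∀ t ∈ Set.Icc (0 : ℝ) 1, HasDerivAt A (f t) t := by
    intro t ht
    rw [hA]
    exact intervalIntegral.integral_hasDerivAt_right (hint t ht)
      hmeas.stronglyMeasurable.stronglyMeasurableAtFilter (hcont t ht)
  have hXD : ∀ t, HasDerivAt X (deriv X t) t := fun t =>
    ((hX.differentiable one_ne_zero) t).hasDerivAt
  have hYD : ∀ t, HasDerivAt Y (deriv Y t) t := fun t =>
    ((hY.differentiable one_ne_zero) t).hasDerivAt
  have hA0 : A 0 = 0 := by rw [hA]; simp
  -- the two constant functions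
  have hS : ∀ t, HasDerivAt (fun t => X t ^ 2 + Y t ^ 2)
      (2 * X t * deriv X t + 2 * Y t * deriv Y t) t := by
    intro t
    have := ((hXD t).pow 2).add ((hYD t).pow 2)
    refine this.congr_deriv ?_
    simp
  have hr : ∀ t ∈ Set.Icc (0 : ℝ) 1, HasDerivAt (fun t => Real.sqrt (X t ^ 2 + Y t ^ 2))
      ((2 * X t * deriv X t + 2 * Y t * deriv Y t) / (2 * Real.sqrt (X t ^ 2 + Y t ^ 2))) t :=
    fun t ht => (hS t).sqrt (hpos t ht).ne'
  have h1 : ∀ t ∈ Set.Icc (0 : ℝ) 1, HasDerivAt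
      (fun t => (X t * Real.cos (A t) + Y t * Real.sin (A t)) / Real.sqrt (X t ^ 2 + Y t ^ 2))
      0 t := by
    intro t ht
    have hp := hpos t ht
    have hrp : 0 < Real.sqrt (X t ^ 2 + Y t ^ 2) := Real.sqrt_pos.2 hp
    have hr2 : Real.sqrt (X t ^ 2 + Y t ^ 2) ^ 2 = X t ^ 2 + Y t ^ 2 := Real.sq_sqrt hp.le
    have e1 := (((hXD t).mul ((hAd t ht).cos)).add ((hYD t).mul ((hAd t ht).sin))).div
      (hr t ht) hrp.ne'
    refine e1.congr_deriv ?_
    rw [div_eq_zero_iff]
    left
    have hSf : f t * (X t ^ 2 + Y t ^ 2) = X t * deriv Y t - Y t * deriv X t := by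
      simp only [hf]; field_simp
    set r := Real.sqrt (X t ^ 2 + Y t ^ 2) with hrdef
    have : r * (((deriv X t * Real.cos (A t) + X t * (-Real.sin (A t) * f t)) +
        (deriv Y t * Real.sin (A t) + Y t * (Real.cos (A t) * f t))) * r -
        (X t * Real.cos (A t) + Y t * Real.sin (A t)) *
        ((2 * X t * deriv X t + 2 * Y t * deriv Y t) / (2 * r))) = 0 := by
      have e2 : r * ((2 * X t * deriv X t + 2 * Y t * deriv Y t) / (2 * r)) =
          X t * deriv X t + Y t * deriv Y t := by field_simp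
      linear_combination ((deriv X t * Real.cos (A t) + X t * (-Real.sin (A t) * f t)) +
        (deriv Y t * Real.sin (A t) + Y t * (Real.cos (A t) * f t))) * hr2 -
        (X t * Real.cos (A t) + Y t * Real.sin (A t)) * e2 +
        (Y t * Real.cos (A t) - X t * Real.sin (A t)) * hSf
    exact (mul_eq_zero.1 this).resolve_left hrp.ne'
  have h2 : ∀ t ∈ Set.Icc (0 : ℝ) 1, HasDerivAt
      (fun t => (Y t * Real.cos (A t) - X t * Real.sin (A t)) / Real.sqrt (X t ^ 2 + Y t ^ 2))
      0 t := by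
    intro t ht
    have hp := hpos t ht
    have hrp : 0 < Real.sqrt (X t ^ 2 + Y t ^ 2) := Real.sqrt_pos.2 hp
    have hr2 : Real.sqrt (X t ^ 2 + Y t ^ 2) ^ 2 = X t ^ 2 + Y t ^ 2 := Real.sq_sqrt hp.le
    have e1 := (((hYD t).mul ((hAd t ht).cos)).sub ((hXD t).mul ((hAd t ht).sin))).div
      (hr t ht) hrp.ne'
    refine e1.congr_deriv ?_
    rw [div_eq_zero_iff]
    left
    have hSf : f t * (X t ^ 2 + Y t ^ 2) = X t * deriv Y t - Y t * deriv X t := by
      simp only [hf]; field_simp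
    set r := Real.sqrt (X t ^ 2 + Y t ^ 2) with hrdef
    have : r * (((deriv Y t * Real.cos (A t) + Y t * (-Real.sin (A t) * f t)) -
        (deriv X t * Real.sin (A t) + X t * (Real.cos (A t) * f t))) * r -
        (Y t * Real.cos (A t) - X t * Real.sin (A t)) *
        ((2 * X t * deriv X t + 2 * Y t * deriv Y t) / (2 * r))) = 0 := by
      have e2 : r * ((2 * X t * deriv X t + 2 * Y t * deriv Y t) / (2 * r)) =
          X t * deriv X t + Y t * deriv Y t := by field_simp
      linear_combination ((deriv Y t * Real.cos (A t) + Y t * (-Real.sin (A t) * f t)) -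
        (deriv X t * Real.sin (A t) + X t * (Real.cos (A t) * f t))) * hr2 -
        (Y t * Real.cos (A t) - X t * Real.sin (A t)) * e2 -
        (X t * Real.cos (A t) + Y t * Real.sin (A t)) * hSf
    exact (mul_eq_zero.1 this).resolve_left hrp.ne'
  intro t ht
  have c1 := constant_of_has_deriv_right_zero (a := 0) (b := 1)
    (f := fun t => (X t * Real.cos (A t) + Y t * Real.sin (A t)) /
      Real.sqrt (X t ^ 2 + Y t ^ 2))
    (fun s hs => (h1 s hs).continuousAt.continuousWithinAt)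
    (fun s hs => (h1 s ⟨hs.1, hs.2.le⟩).hasDerivWithinAt) t ht
  have c2 := constant_of_has_deriv_right_zero (a := 0) (b := 1)
    (f := fun t => (Y t * Real.cos (A t) - X t * Real.sin (A t)) /
      Real.sqrt (X t ^ 2 + Y t ^ 2))
    (fun s hs => (h2 s hs).continuousAt.continuousWithinAt)
    (fun s hs => (h2 s ⟨hs.1, hs.2.le⟩).hasDerivWithinAt) t ht
  simp only [hA0, hY0, Real.cos_zero, Real.sin_zero] at c1 c2
  have hsq0 : Real.sqrt (X 0 ^ 2 + 0 ^ 2) = X 0 := by
    rw [show X 0 ^ 2 + 0 ^ 2 = X 0 ^ 2 by ring, Real.sqrt_sq hX0.le]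
  rw [hsq0] at c1 c2
  have hp := hpos t ht
  have hrp : 0 < Real.sqrt (X t ^ 2 + Y t ^ 2) := Real.sqrt_pos.2 hp
  have c1' : X t * Real.cos (A t) + Y t * Real.sin (A t) = Real.sqrt (X t ^ 2 + Y t ^ 2) := by
    rw [div_eq_iff hrp.ne'] at c1
    rw [c1]
    field_simp
    ring
  have c2' : Y t * Real.cos (A t) - X t * Real.sin (A t) = 0 := by
    rw [div_eq_iff hrp.ne'] at c2
    rw [c2]
    simp
  have hcs := Real.sin_sq_add_cos_sq (A t)
  constructor
  · rw [← c1']
    linear_combination (-(X t)) * hcs - Real.sin (A t) * c2'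
  · rw [← c1']
    linear_combination (-(Y t)) * hcs + Real.cos (A t) * c2'

end Pool.Agent.V11191.Opp
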