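import Mathlib
import Pool.Agent.V11191.Opp.Polar

open scoped RealInnerProductSpace Topology Interval
open MeasureTheory

namespace Pool.Agent.V11191.Opp

/-- An orthonormal frame of `ℝ³`. -/
structure Fr (y τ n : E3) : Prop where
  hy : ‖y‖ = 1
  hτ : ‖τ‖ = 1
  hn : ‖n‖ = 1
  hyτ : ⟪y, τ⟫ = 0
  hyn : ⟪y, n⟫ = 0
  hτn : ⟪τ, n⟫ = 0

theorem Fr.expand {y τ n : E3} (h : Fr y τ n) (p : E3) :
    p = ⟪y, p⟫ • y + ⟪τ, p⟫ • τ + ⟪n, p⟫ • n := by
  have hyy : ⟪y, y⟫ = 1 := by rw [real_inner_self_eq_norm_sq, h.hy]; norm_num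
  have hττ : ⟪τ, τ⟫ = 1 := by rw [real_inner_self_eq_norm_sq, h.hτ]; norm_num
  have hnn : ⟪n, n⟫ = 1 := by rw [real_inner_self_eq_norm_sq, h.hn]; norm_num
  have hon : Orthonormal ℝ ![y, τ, n] := by
    constructor
    · intro i; fin_cases i <;> simp [h.hy, h.hτ, h.hn]
    · intro i j hij
      fin_cases i <;> fin_cases j <;>
        simp_all [real_inner_comm, Fr.hyτ h, Fr.hyn h, Fr.hτn h]
  have hcard : Fintype.card (Fin 3) = Module.finrank ℝ E3 := by simp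
  let b := basisOfOrthonormalOfCardEqFinrank hon hcard
  have hb : ⇑b = ![y, τ, n] := coe_basisOfOrthonormalOfCardEqFinrank hon hcard
  have hb' : Orthonormal ℝ ⇑b := by rw [hb]; exact hon
  let ob := b.toOrthonormalBasis hb'
  have hob : ⇑ob = ![y, τ, n] := by
    simp [ob, Module.Basis.coe_toOrthonormalBasis, hb]
  have := ob.sum_repr p
  rw [Fin.sum_univ_three] at this
  simp only [ob.repr_apply_apply] at this
  rw [hob] at this
  simpa using this.symm

theorem Fr.norm_sq {y τ n : E3} (h : Fr y τ n) (p : E3) :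
    ‖p‖ ^ 2 = ⟪y, p⟫ ^ 2 + ⟪τ, p⟫ ^ 2 + ⟪n, p⟫ ^ 2 := by
  have hp := h.expand p
  have e : ⟪p, p⟫ = ⟪⟪y, p⟫ • y + ⟪τ, p⟫ • τ + ⟪n, p⟫ • n, p⟫ :=
    congrArg (fun q => ⟪q, p⟫) hp
  rw [← real_inner_self_eq_norm_sq, e]
  simp only [inner_add_left, inner_smul_left, RCLike.conj_to_real]
  ring

theorem exists_frame {y τ : E3} (hy : ‖y‖ = 1) (hτ : ‖τ‖ = 1) (h : ⟪y, τ⟫ = 0) :
    ∃ n, Fr y τ n := by
  let K : Submodule ℝ E3 := Submodule.span ℝ {y, τ}
  have hfin : Module.finrank ℝ K ≤ 2 := by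
    have := finrank_span_le_card (R := ℝ) (M := E3) ({y, τ} : Set E3)
    refine this.trans ?_
    rw [Set.toFinset_card]
    have : Fintype.card ({y, τ} : Set E3) ≤ 2 := by
      have h2 := Set.ncard_insert_le y {τ}
      rw [Set.ncard_singleton] at h2
      rw [← Nat.card_eq_fintype_card, Nat.card_coe_set_eq]
      exact h2
    exact this
  have hsum : Module.finrank ℝ K + Module.finrank ℝ Kᗮ = 3 := by
    have := K.finrank_add_finrank_orthogonal
    simpa using this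
  have hpos : 0 < Module.finrank ℝ Kᗮ := by omega
  obtain ⟨v, hv⟩ := Module.finrank_pos_iff_exists_ne_zero.1 hpos
  have hv0 : (v : E3) ≠ 0 := by simpa using hv
  have hvn : ‖(v : E3)‖ ≠ 0 := norm_ne_zero_iff.2 hv0
  have hyv : ⟪y, (v : E3)⟫ = 0 :=
    Submodule.inner_right_of_mem_orthogonal (Submodule.subset_span (by simp)) v.2
  have hτv : ⟪τ, (v : E3)⟫ = 0 :=
    Submodule.inner_right_of_mem_orthogonal (Submodule.subset_span (by simp)) v.2
  refine ⟨(‖(v : E3)‖)⁻¹ • (v : E3), ⟨hy, hτ, ?_, h, ?_, ?_⟩⟩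
  · rw [norm_smul, norm_inv, norm_norm, inv_mul_cancel₀ hvn]
  · rw [inner_smul_right, hyv, mul_zero]
  · rw [inner_smul_right, hτv, mul_zero]

theorem exists_tangent (y : E3) : ∃ τ : E3, ‖τ‖ = 1 ∧ ⟪y, τ⟫ = 0 := by
  let K : Submodule ℝ E3 := Submodule.span ℝ {y}
  have hfin : Module.finrank ℝ K ≤ 1 := by
    have := finrank_span_le_card (R := ℝ) (M := E3) ({y} : Set E3)
    simpa using this
  have hsum : Module.finrank ℝ K + Module.finrank ℝ Kᗮ = 3 := by
    have := K.finrank_add_finrank_orthogonal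
    simpa using this
  have hpos : 0 < Module.finrank ℝ Kᗮ := by omega
  obtain ⟨v, hv⟩ := Module.finrank_pos_iff_exists_ne_zero.1 hpos
  have hv0 : (v : E3) ≠ 0 := by simpa using hv
  have hvn : ‖(v : E3)‖ ≠ 0 := norm_ne_zero_iff.2 hv0
  have hyv : ⟪y, (v : E3)⟫ = 0 :=
    Submodule.inner_right_of_mem_orthogonal (Submodule.subset_span (by simp)) v.2
  refine ⟨(‖(v : E3)‖)⁻¹ • (v : E3), ?_, ?_⟩
  · rw [norm_smul, norm_inv, norm_norm, inv_mul_cancel₀ hvn]
  · rw [inner_smul_right, hyv, mul_zero]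

end Pool.Agent.V11191.Opp
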