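import Mathlib
import Pool.Agent.V11191.Opp.Frame

open scoped RealInnerProductSpace Topology Interval
open MeasureTheory

namespace Pool.Agent.V11191.Opp

/-- Hypotheses on the perturbation. -/
structure Good (u : E3 → ℝ) (M : ℝ) : Prop where
  smooth : ContDiff ℝ 1 u
  one_le : 1 ≤ M
  bound : ∀ p, ‖p‖ = 1 → |u p| ≤ M
  dbound : ∀ p v, ‖p‖ = 1 → |fderiv ℝ u p v| ≤ M * ‖v‖
  lip : ∀ p q, ‖p‖ = 1 → ‖q‖ = 1 → |u p - u q| ≤ M * ‖p - q‖
  odd : ∀ p, u (-p) = -u p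

variable {u : E3 → ℝ} {M : ℝ}

theorem exp_bounds {x μ : ℝ} (hμ : μ ≤ 1 / 1000) (h : |x| ≤ μ) :
    1 - μ ≤ Real.exp x ∧ Real.exp x ≤ 1 + 2 * μ := by
  have h' := abs_le.1 h
  have hμ0 : 0 ≤ μ := (abs_nonneg x).trans h
  constructor
  · have := Real.add_one_le_exp x
    linarith
  · have h1 : |x| ≤ 1 := by linarith
    have h2 := Real.abs_exp_sub_one_sub_id_le h1
    have h3 := (abs_le.1 h2).2
    have h4 : x ^ 2 ≤ μ := by nlinarith [sq_abs x, abs_nonneg x]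
    linarith

theorem exp_le_quad {x : ℝ} (h : |x| ≤ 1) : Real.exp x ≤ 1 + x + x ^ 2 := by
  have h2 := Real.abs_exp_sub_one_sub_id_le h
  have h3 := (abs_le.1 h2).2
  linarith

/-- The basic estimates along one segment. -/
theorem seg_est (hu : Good u M) {ε μ d : ℝ} (hε : 0 < ε) (hμdef : μ = ε * M)
    (hμ : μ ≤ 1 / 1000) {γ : ℝ → E3} {x y τ n : E3} (hF : Fr y τ n)
    (hγ : IsSegment (fun p => ε * u p) γ y x)
    (hd : d = rho (fun p => ε * u p) y x) (hd0 : 0 < d) (hd4 : d ≤ 4)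
    {v : ℝ} (hv : 0 < v) (hdir : deriv γ 0 = v • τ) :
    ∃ A : ℝ → ℝ, (∀ t ∈ Set.Icc (0 : ℝ) 1,
        |⟪n, γ t⟫| ≤ 9 * μ ∧
        γ t = (Real.sqrt (1 - ⟪n, γ t⟫ ^ 2) * Real.cos (A t)) • y +
          (Real.sqrt (1 - ⟪n, γ t⟫ ^ 2) * Real.sin (A t)) • τ + ⟪n, γ t⟫ • n ∧
        |A t - d * t| ≤ 28 * μ) ∧
      0 < A 1 ∧
      A 1 * (1 - 81 * μ ^ 2) ≤ d * ∫ t in (0 : ℝ)..1, Real.exp (-(ε * u (γ t))) := by
  have hM := hu.one_le
  have hμ0 : 0 < μ := by rw [hμdef]; positivity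
  have hγ1 := hγ.path.c1
  have hγc : Continuous γ := hγ1.continuous
  have hγd : Continuous (deriv γ) := hγ1.continuous_deriv le_rfl
  have hγD : ∀ t, HasDerivAt γ (deriv γ t) t := fun t =>
    ((hγ1.differentiable one_ne_zero) t).hasDerivAt
  have huc : Continuous u := hu.smooth.continuous
  have hnorm : ∀ t ∈ Set.Icc (0 : ℝ) 1, ‖γ t‖ = 1 := fun t ht => by
    have := hγ.path.mem t ht
    rwa [mem_sphere_zero_iff_norm] at this
  have hφ1 : ContDiff ℝ 1 (fun p => ε * u p) := contDiff_const.mul hu.smooth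
  have hsp : ∀ t ∈ Set.Icc (0 : ℝ) 1, Real.exp (ε * u (γ t)) * ‖deriv γ t‖ = d := by
    intro t ht; rw [hd]; exact hγ.speed t ht
  have hub : ∀ t ∈ Set.Icc (0 : ℝ) 1, |ε * u (γ t)| ≤ μ := by
    intro t ht
    rw [abs_mul, abs_of_pos hε, hμdef]
    exact mul_le_mul_of_nonneg_left (hu.bound _ (hnorm t ht)) hε.le
  -- estimate of the momenta
  have hJ : ∀ a b : E3, ‖a‖ = 1 → ‖b‖ = 1 → ⟪a, b⟫ = 0 → ∀ t ∈ Set.Icc (0 : ℝ) 1,
      |Real.exp (2 * (ε * u (γ t))) * ⟪deriv γ t, Agen a b (γ t)⟫ -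
        Real.exp (2 * (ε * u (γ 0))) * ⟪deriv γ 0, Agen a b (γ 0)⟫| ≤ d ^ 2 * μ := by
    intro a b ha hb hab t ht
    have h := el hφ1 hγ ha hb hab ht
    rw [h, add_sub_cancel_left]
    have hbd : ∀ s ∈ Ι (0 : ℝ) t, ‖Real.exp (2 * (ε * u (γ s))) *
        fderiv ℝ (fun p => ε * u p) (γ s) (Agen a b (γ s)) * ‖deriv γ s‖ ^ 2‖ ≤ d ^ 2 * μ := by
      intro s hs
      rw [Set.uIoc_of_le ht.1] at hs
      have hs' : s ∈ Set.Icc (0 : ℝ) 1 := ⟨hs.1.le, hs.2.trans ht.2⟩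
      have e1 : Real.exp (2 * (ε * u (γ s))) = Real.exp (ε * u (γ s)) ^ 2 := by
        rw [← Real.exp_nat_mul]; norm_num
      have e2 : fderiv ℝ (fun p => ε * u p) (γ s) (Agen a b (γ s)) =
          ε * fderiv ℝ u (γ s) (Agen a b (γ s)) := by
        rw [fderiv_const_mul ((hu.smooth.differentiable one_ne_zero) _)]
        simp
      rw [e1, e2]
      have e3 : Real.exp (ε * u (γ s)) ^ 2 * (ε * fderiv ℝ u (γ s) (Agen a b (γ s))) *
          ‖deriv γ s‖ ^ 2 = (Real.exp (ε * u (γ s)) * ‖deriv γ s‖) ^ 2 *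
          (ε * fderiv ℝ u (γ s) (Agen a b (γ s))) := by ring
      rw [e3, hsp s hs', norm_mul, Real.norm_eq_abs, Real.norm_eq_abs, abs_of_nonneg (sq_nonneg d),
        abs_mul, abs_of_pos hε]
      have h4 : |fderiv ℝ u (γ s) (Agen a b (γ s))| ≤ M := by
        refine (hu.dbound _ _ (hnorm s hs')).trans ?_
        have := Agen_norm_le ha hb hab (γ s)
        rw [hnorm s hs'] at this
        calc M * ‖Agen a b (γ s)‖ ≤ M * 1 := by gcongr
          _ = M := mul_one _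
      rw [hμdef]
      have : 0 ≤ d ^ 2 := sq_nonneg d
      gcongr
    have := intervalIntegral.norm_integral_le_of_norm_le_const hbd
    rw [Real.norm_eq_abs] at this
    refine this.trans ?_
    rw [sub_zero, abs_of_nonneg ht.1]
    have : 0 ≤ d ^ 2 * μ := by positivity
    calc d ^ 2 * μ * t ≤ d ^ 2 * μ * 1 := by gcongr; exact ht.2
      _ = _ := mul_one _
  have hη : d ^ 2 * μ ≤ 4 * μ * d := by
    have := mul_le_mul_of_nonneg_right hd4 (mul_pos hd0 hμ0).le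
    nlinarith
  have hpair : ∀ a b : E3, ∀ t, ⟪deriv γ t, Agen a b (γ t)⟫ =
      ⟪a, γ t⟫ * ⟪b, deriv γ t⟫ - ⟪b, γ t⟫ * ⟪a, deriv γ t⟫ := by
    intro a b t
    rw [Agen_apply, inner_sub_right, inner_smul_right, inner_smul_right,
      real_inner_comm b (deriv γ t), real_inner_comm a (deriv γ t)]
  have hyy : ⟪y, y⟫ = 1 := by rw [real_inner_self_eq_norm_sq, hF.hy]; norm_num
  have hττ : ⟪τ, τ⟫ = 1 := by rw [real_inner_self_eq_norm_sq, hF.hτ]; norm_num
  have h0mem : (0 : ℝ) ∈ Set.Icc (0 : ℝ) 1 := ⟨le_rfl, by norm_num⟩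
  have hst := hγ.path.start
  -- values at 0
  have hτy : ⟪τ, y⟫ = 0 := by rw [real_inner_comm]; exact hF.hyτ
  have hny : ⟪n, y⟫ = 0 := by rw [real_inner_comm]; exact hF.hyn
  have hnτ : ⟪n, τ⟫ = 0 := by rw [real_inner_comm]; exact hF.hτn
  have hv' : Real.exp (ε * u y) * v = d := by
    have := hsp 0 h0mem
    rw [hst, hdir, norm_smul, hF.hτ, mul_one, Real.norm_eq_abs, abs_of_pos hv] at this
    exact this
  have h0val : ∀ a b : E3, ⟪deriv γ 0, Agen a b (γ 0)⟫ =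
      ⟪a, y⟫ * (v * ⟪b, τ⟫) - ⟪b, y⟫ * (v * ⟪a, τ⟫) := by
    intro a b
    rw [hpair, hst, hdir, inner_smul_right, inner_smul_right]
  have hj1 : ∀ t ∈ Set.Icc (0 : ℝ) 1, |Real.exp (2 * (ε * u (γ t))) *
      (⟪y, γ t⟫ * ⟪τ, deriv γ t⟫ - ⟪τ, γ t⟫ * ⟪y, deriv γ t⟫) -
      Real.exp (2 * (ε * u y)) * v| ≤ d ^ 2 * μ := by
    intro t ht
    have := hJ y τ hF.hy hF.hτ hF.hyτ t ht
    rw [h0val, hpair, hst, hyy, hττ, hτy] at this
    simpa using this
  have hj2 : ∀ t ∈ Set.Icc (0 : ℝ) 1, |Real.exp (2 * (ε * u (γ t))) *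
      (⟪y, γ t⟫ * ⟪n, deriv γ t⟫ - ⟪n, γ t⟫ * ⟪y, deriv γ t⟫)| ≤ d ^ 2 * μ := by
    intro t ht
    have := hJ y n hF.hy hF.hn hF.hyn t ht
    rw [h0val, hpair, hst, hyy, hnτ, hny] at this
    simpa using this
  have hj3 : ∀ t ∈ Set.Icc (0 : ℝ) 1, |Real.exp (2 * (ε * u (γ t))) *
      (⟪τ, γ t⟫ * ⟪n, deriv γ t⟫ - ⟪n, γ t⟫ * ⟪τ, deriv γ t⟫)| ≤ d ^ 2 * μ := by
    intro t ht
    have := hJ τ n hF.hτ hF.hn hF.hτn t ht
    rw [h0val, hpair, hst, hτy, hny] at this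
    simpa using this
  -- abbreviations
  set X : ℝ → ℝ := fun t => ⟪y, γ t⟫ with hX
  set Y : ℝ → ℝ := fun t => ⟪τ, γ t⟫ with hY
  set Z : ℝ → ℝ := fun t => ⟪n, γ t⟫ with hZ
  have hin : ∀ w : E3, ∀ t, HasDerivAt (fun t => ⟪w, γ t⟫) ⟪w, deriv γ t⟫ t := fun w t => by
    have := (hasDerivAt_const t w).inner ℝ (hγD t)
    simpa using this
  have hX1 : ContDiff ℝ 1 X := contDiff_const.inner ℝ hγ1
  have hY1 : ContDiff ℝ 1 Y := contDiff_const.inner ℝ hγ1
  have hXd : ∀ t, deriv X t = ⟪y, deriv γ t⟫ := fun t => (hin y t).deriv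
  have hYd : ∀ t, deriv Y t = ⟪τ, deriv γ t⟫ := fun t => (hin τ t).deriv
  have hsum : ∀ t ∈ Set.Icc (0 : ℝ) 1, X t ^ 2 + Y t ^ 2 = 1 - Z t ^ 2 := by
    intro t ht
    have := hF.norm_sq (γ t)
    rw [hnorm t ht] at this
    simp only [hX, hY, hZ]
    linarith
  -- the lower bound for the main momentum
  have hJ1 : ∀ t ∈ Set.Icc (0 : ℝ) 1, (1 - 5 * μ) * d ≤ Real.exp (2 * (ε * u (γ t))) *
      (X t * deriv Y t - Y t * deriv X t) := by
    intro t ht
    have h1 := (abs_le.1 (hj1 t ht)).1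
    have h2 : Real.exp (2 * (ε * u y)) * v = Real.exp (ε * u y) * d := by
      rw [← hv', two_mul, Real.exp_add, mul_assoc]
    have h3 : |ε * u y| ≤ μ := by have := hub 0 h0mem; rwa [hst] at this
    have h4 := (exp_bounds hμ h3).1
    rw [h2] at h1
    have h5 : (1 - μ) * d ≤ Real.exp (ε * u y) * d := by gcongr
    rw [hXd, hYd]
    simp only [hX, hY]
    linarith
  have hZb : ∀ t ∈ Set.Icc (0 : ℝ) 1, |Z t| ≤ 9 * μ := by
    intro t ht
    have h2 := hj2 t ht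
    have h3 := hj3 t ht
    have h1 := hJ1 t ht
    set E := Real.exp (2 * (ε * u (γ t))) with hE
    have hXle : |X t| ≤ 1 := by
      have := abs_real_inner_le_norm y (γ t)
      rwa [hF.hy, hnorm t ht, mul_one] at this
    have hYle : |Y t| ≤ 1 := by
      have := abs_real_inner_le_norm τ (γ t)
      rwa [hF.hτ, hnorm t ht, mul_one] at this
    have hid : Z t * (E * (X t * deriv Y t - Y t * deriv X t)) =
        Y t * (E * (⟪y, γ t⟫ * ⟪n, deriv γ t⟫ - ⟪n, γ t⟫ * ⟪y, deriv γ t⟫)) -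
        X t * (E * (⟪τ, γ t⟫ * ⟪n, deriv γ t⟫ - ⟪n, γ t⟫ * ⟪τ, deriv γ t⟫)) * (-1) * (-1) +
        0 := by
      rw [hXd, hYd]
      simp only [hX, hY, hZ]
      ring
    have hQ1 : 0 < E * (X t * deriv Y t - Y t * deriv X t) :=
      lt_of_lt_of_le (by nlinarith) h1
    have h6 : |Z t| * (E * (X t * deriv Y t - Y t * deriv X t)) ≤ 2 * (d ^ 2 * μ) := by
      have : |Z t| * (E * (X t * deriv Y t - Y t * deriv X t)) =
          |Z t * (E * (X t * deriv Y t - Y t * deriv X t))| := by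
        rw [abs_mul, abs_of_pos hQ1]
      rw [this, hid]
      set P2 := (E * (⟪y, γ t⟫ * ⟪n, deriv γ t⟫ - ⟪n, γ t⟫ * ⟪y, deriv γ t⟫))
      set P3 := (E * (⟪τ, γ t⟫ * ⟪n, deriv γ t⟫ - ⟪n, γ t⟫ * ⟪τ, deriv γ t⟫))
      have h2' : |P2| ≤ d ^ 2 * μ := h2
      have h3' : |P3| ≤ d ^ 2 * μ := h3
      have a1 : |Y t * P2| ≤ d ^ 2 * μ := by
        rw [abs_mul]
        calc |Y t| * |P2| ≤ 1 * |P2| := by gcongr
          _ ≤ _ := by rw [one_mul]; exact h2'
      have a2 : |X t * P3| ≤ d ^ 2 * μ := by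
        rw [abs_mul]
        calc |X t| * |P3| ≤ 1 * |P3| := by gcongr
          _ ≤ _ := by rw [one_mul]; exact h3'
      have a3 : Y t * P2 - X t * P3 * (-1) * (-1) + 0 = Y t * P2 - X t * P3 := by ring
      rw [a3]
      refine (abs_sub _ _).trans ?_
      linarith
    have h7 : |Z t| * ((1 - 5 * μ) * d) ≤ 2 * (d ^ 2 * μ) :=
      (mul_le_mul_of_nonneg_left h1 (abs_nonneg _)).trans h6
    have h8 : |Z t| * (1 - 5 * μ) ≤ 8 * μ := by
      have : (|Z t| * (1 - 5 * μ)) * d ≤ (8 * μ) * d := by nlinarith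
      exact le_of_mul_le_mul_right this hd0
    have h9 : |Z t| ≤ 1 := by
      have := abs_real_inner_le_norm n (γ t)
      rwa [hF.hn, hnorm t ht, mul_one] at this
    nlinarith
  have hZ2 : ∀ t ∈ Set.Icc (0 : ℝ) 1, Z t ^ 2 ≤ 81 * μ ^ 2 := by
    intro t ht
    have := hZb t ht
    rw [← sq_abs]
    nlinarith [abs_nonneg (Z t)]
  have hpos : ∀ t ∈ Set.Icc (0 : ℝ) 1, 0 < X t ^ 2 + Y t ^ 2 := by
    intro t ht
    rw [hsum t ht]
    have := hZ2 t ht
    nlinarith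
  have hX0 : X 0 = 1 := by simp only [hX, hst, hyy]
  have hY0 : Y 0 = 0 := by simp only [hY, hst, hτy]
  set A : ℝ → ℝ := fun t => ∫ s in (0 : ℝ)..t, (X s * deriv Y s - Y s * deriv X s) /
      (X s ^ 2 + Y s ^ 2) with hA
  have hpol := polar hX1 hY1 hpos (by rw [hX0]; norm_num) hY0 hA
  -- bounds of the integrand
  set f : ℝ → ℝ := fun s => (X s * deriv Y s - Y s * deriv X s) / (X s ^ 2 + Y s ^ 2) with hf
  have hXdc : Continuous (deriv X) := hX1.continuous_deriv le_rfl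
  have hYdc : Continuous (deriv Y) := hY1.continuous_deriv le_rfl
  have hXc : Continuous X := hX1.continuous
  have hYc : Continuous Y := hY1.continuous
  have hnum : Continuous fun s => X s * deriv Y s - Y s * deriv X s := by fun_prop
  have hden : Continuous fun s => X s ^ 2 + Y s ^ 2 := by fun_prop
  have hint : ∀ t ∈ Set.Icc (0 : ℝ) 1, IntervalIntegrable f volume 0 t := by
    intro t ht
    refine ContinuousOn.intervalIntegrable fun s hs => ?_
    rw [Set.uIcc_of_le ht.1] at hs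
    exact (hnum.continuousAt.div hden.continuousAt
      (hpos s ⟨hs.1, hs.2.trans ht.2⟩).ne').continuousWithinAt
  have hup : ∀ t ∈ Set.Icc (0 : ℝ) 1,
      f t * (1 - 81 * μ ^ 2) ≤ d * Real.exp (-(ε * u (γ t))) := by
    intro t ht
    have hp := hpos t ht
    have hN : ‖deriv γ t‖ = d * Real.exp (-(ε * u (γ t))) := by
      rw [← hsp t ht, Real.exp_neg]
      field_simp
    -- Cauchy-Schwarz
    have hcs : X t * deriv Y t - Y t * deriv X t ≤
        Real.sqrt (X t ^ 2 + Y t ^ 2) * ‖deriv γ t‖ := by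
      have e1 : (X t * deriv Y t - Y t * deriv X t) ^ 2 ≤
          (X t ^ 2 + Y t ^ 2) * ‖deriv γ t‖ ^ 2 := by
        have e2 := hF.norm_sq (deriv γ t)
        rw [← hXd, ← hYd] at e2
        rw [e2]
        nlinarith [sq_nonneg (X t * deriv X t + Y t * deriv Y t),
          mul_nonneg hp.le (sq_nonneg ⟪n, deriv γ t⟫)]
      have e3 : 0 ≤ Real.sqrt (X t ^ 2 + Y t ^ 2) * ‖deriv γ t‖ := by positivity
      refine le_of_abs_le (abs_le_of_sq_le_sq ?_ e3)
      rw [mul_pow, Real.sq_sqrt hp.le]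
      exact e1
    rw [← hN]
    set r := Real.sqrt (X t ^ 2 + Y t ^ 2) with hr
    have hrp : 0 < r := Real.sqrt_pos.2 hp
    have hr2 : r ^ 2 = X t ^ 2 + Y t ^ 2 := Real.sq_sqrt hp.le
    have hrl : 1 - 81 * μ ^ 2 ≤ r := by
      have h1 := hZ2 t ht
      have h2 : r ^ 2 = 1 - Z t ^ 2 := by rw [hr2, hsum t ht]
      have h3 : r ≤ 1 := by
        rw [hr, hsum t ht]
        exact Real.sqrt_le_one.2 (by nlinarith [sq_nonneg (Z t)])
      have h4 : r ^ 2 ≤ r := by nlinarith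
      linarith
    have hf1 : f t = (X t * deriv Y t - Y t * deriv X t) / r ^ 2 := by rw [hr2]
    rw [hf1, div_mul_eq_mul_div, div_le_iff₀ (by positivity)]
    have hγn : 0 ≤ ‖deriv γ t‖ := norm_nonneg _
    have hμ2 : 0 ≤ 1 - 81 * μ ^ 2 := by nlinarith
    calc (X t * deriv Y t - Y t * deriv X t) * (1 - 81 * μ ^ 2)
        ≤ (r * ‖deriv γ t‖) * (1 - 81 * μ ^ 2) := by gcongr
      _ ≤ (r * ‖deriv γ t‖) * r := by gcongr
      _ = ‖deriv γ t‖ * r ^ 2 := by ring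
  have hlow : ∀ t ∈ Set.Icc (0 : ℝ) 1, (1 - 7 * μ) * d ≤ f t := by
    intro t ht
    have hp := hpos t ht
    have h1 := hJ1 t ht
    have h2 : |-(2 * (ε * u (γ t)))| ≤ 2 * μ := by
      rw [abs_neg, abs_mul, abs_two]; have := hub t ht; linarith
    have h3 : 1 - 2 * μ ≤ Real.exp (-(2 * (ε * u (γ t)))) := by
      have := Real.add_one_le_exp (-(2 * (ε * u (γ t))))
      have := (abs_le.1 h2).1
      linarith
    have h4 : X t * deriv Y t - Y t * deriv X t = Real.exp (-(2 * (ε * u (γ t)))) *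
        (Real.exp (2 * (ε * u (γ t))) * (X t * deriv Y t - Y t * deriv X t)) := by
      rw [← mul_assoc, ← Real.exp_add]; simp
    have h5 : (1 - 2 * μ) * ((1 - 5 * μ) * d) ≤ X t * deriv Y t - Y t * deriv X t := by
      rw [h4]
      have : 0 ≤ (1 - 5 * μ) * d := by nlinarith
      have : 0 ≤ 1 - 2 * μ := by linarith
      gcongr
    have h6 : (1 - 7 * μ) * d ≤ X t * deriv Y t - Y t * deriv X t := by
      have e : (1 - 2 * μ) * ((1 - 5 * μ) * d) = (1 - 7 * μ) * d + 10 * μ ^ 2 * d := by ring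
      have e' : 0 ≤ 10 * μ ^ 2 * d := by positivity
      linarith
    have h7 : X t ^ 2 + Y t ^ 2 ≤ 1 := by
      rw [hsum t ht]; nlinarith [sq_nonneg (Z t)]
    have h8 : 0 ≤ X t * deriv Y t - Y t * deriv X t := le_trans (by nlinarith) h6
    simp only [hf]
    rw [le_div_iff₀ hp]
    nlinarith
  have hupp : ∀ t ∈ Set.Icc (0 : ℝ) 1, f t ≤ (1 + 3 * μ) * d := by
    intro t ht
    have h1 := hup t ht
    have h2 : |-(ε * u (γ t))| ≤ μ := by rw [abs_neg]; exact hub t ht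
    have h3 := (exp_bounds hμ h2).2
    have h4 : f t * (1 - 81 * μ ^ 2) ≤ d * (1 + 2 * μ) := h1.trans (by gcongr)
    have h5 : (1 + 2 * μ) ≤ (1 + 3 * μ) * (1 - 81 * μ ^ 2) := by
      have a1 : μ ^ 2 ≤ μ / 1000 := by nlinarith
      have a2 : μ ^ 3 ≤ μ / 1000 := by
        have : μ ^ 3 = μ ^ 2 * μ := by ring
        nlinarith [mul_le_mul a1 hμ hμ0.le (by positivity : (0:ℝ) ≤ μ / 1000)]
      have e : (1 + 3 * μ) * (1 - 81 * μ ^ 2) = 1 + 3 * μ - 81 * μ ^ 2 - 243 * μ ^ 3 := by ring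
      rw [e]
      linarith
    have h6 : f t * (1 - 81 * μ ^ 2) ≤ ((1 + 3 * μ) * d) * (1 - 81 * μ ^ 2) := by nlinarith
    exact le_of_mul_le_mul_right h6 (by nlinarith)
  have hAbd : ∀ t ∈ Set.Icc (0 : ℝ) 1, |A t - d * t| ≤ 28 * μ := by
    intro t ht
    have e1 : A t - d * t = ∫ s in (0 : ℝ)..t, (f s - d) := by
      rw [intervalIntegral.integral_sub (hint t ht) intervalIntegrable_const]
      simp [hA, hf, mul_comm]
    rw [e1]
    have hbd : ∀ s ∈ Ι (0 : ℝ) t, ‖f s - d‖ ≤ 28 * μ := by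
      intro s hs
      rw [Set.uIoc_of_le ht.1] at hs
      have hs' : s ∈ Set.Icc (0 : ℝ) 1 := ⟨hs.1.le, hs.2.trans ht.2⟩
      have a1 := hlow s hs'
      have a2 := hupp s hs'
      rw [Real.norm_eq_abs, abs_le]
      constructor <;> nlinarith
    have := intervalIntegral.norm_integral_le_of_norm_le_const hbd
    rw [Real.norm_eq_abs, sub_zero, abs_of_nonneg ht.1] at this
    refine this.trans ?_
    have : 28 * μ * t ≤ 28 * μ * 1 := by gcongr; exact ht.2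
    linarith
  refine ⟨A, fun t ht => ⟨hZb t ht, ?_, hAbd t ht⟩, ?_, ?_⟩
  · have h1 := hpol t ht
    have h2 := hF.expand (γ t)
    rw [hsum t ht] at h1
    rw [← h1.1, ← h1.2]
    exact h2
  · have h1 : (1 - 7 * μ) * d ≤ A 1 := by
      have hm : (∫ s in (0 : ℝ)..1, (1 - 7 * μ) * d) ≤ ∫ s in (0 : ℝ)..1, f s := by
        refine intervalIntegral.integral_mono_on (by norm_num) intervalIntegrable_const
          (hint 1 ⟨by norm_num, le_rfl⟩) fun s hs => hlow s hs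
      simpa [hA, hf] using hm
    have : 0 < (1 - 7 * μ) * d := by
      have : 0 < 1 - 7 * μ := by linarith
      positivity
    linarith
  · have hm : (∫ s in (0 : ℝ)..1, f s * (1 - 81 * μ ^ 2)) ≤
        ∫ s in (0 : ℝ)..1, d * Real.exp (-(ε * u (γ s))) := by
      refine intervalIntegral.integral_mono_on (by norm_num)
        ((hint 1 ⟨by norm_num, le_rfl⟩).mul_const _) ?_ fun s hs => hup s hs
      have : Continuous fun s => d * Real.exp (-(ε * u (γ s))) := by fun_prop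
      exact this.intervalIntegrable _ _
    rw [intervalIntegral.integral_mul_const, intervalIntegral.integral_const_mul] at hm
    simpa [hA, hf] using hm

end Pool.Agent.V11191.Opp
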