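import Mathlib
import Pool.Agent.V11191.Opp.Seg

open scoped RealInnerProductSpace Topology Interval
open MeasureTheory

namespace Pool.Agent.V11191.Opp

variable {u : E3 → ℝ} {M : ℝ}

/-- great circle arc -/
noncomputable def gc (y e : E3) (θ : ℝ) : E3 := Real.cos θ • y + Real.sin θ • e

theorem gc_norm {y e : E3} (hy : ‖y‖ = 1) (he : ‖e‖ = 1) (h : ⟪y, e⟫ = 0) (θ : ℝ) :
    ‖gc y e θ‖ = 1 := by
  have hyy : ⟪y, y⟫ = 1 := by rw [real_inner_self_eq_norm_sq, hy]; norm_num
  have hee : ⟪e, e⟫ = 1 := by rw [real_inner_self_eq_norm_sq, he]; norm_num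
  have hey : ⟪e, y⟫ = 0 := by rw [real_inner_comm]; exact h
  have h1 : ‖gc y e θ‖ ^ 2 = 1 := by
    rw [← real_inner_self_eq_norm_sq, gc]
    simp only [inner_add_left, inner_add_right, inner_smul_left, inner_smul_right, hyy, hee, h,
      hey, RCLike.conj_to_real]
    have := Real.sin_sq_add_cos_sq θ
    linear_combination this
  have h2 : ‖gc y e θ‖ ^ 2 = 1 ^ 2 := by rw [h1]; norm_num
  exact (pow_left_inj₀ (norm_nonneg _) zero_le_one two_ne_zero).1 h2

theorem gc_deriv (y e : E3) {f : ℝ → ℝ} {f' t : ℝ} (hf : HasDerivAt f f' t) :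
    HasDerivAt (fun t => gc y e (f t)) (f' • (-(Real.sin (f t)) • y + Real.cos (f t) • e)) t := by
  unfold gc
  have h1 := ((Real.hasDerivAt_cos (f t)).comp t hf).smul_const y
  have h2 := ((Real.hasDerivAt_sin (f t)).comp t hf).smul_const e
  refine (h1.add h2).congr_deriv ?_
  module

theorem exists_dir {y x : E3} (hy : ‖y‖ = 1) (hx : ‖x‖ = 1) :
    ∃ (s : ℝ) (b : E3), 0 ≤ s ∧ s ≤ Real.pi ∧ ‖b‖ = 1 ∧ ⟪y, b⟫ = 0 ∧ x = gc y b s := by
  set c := ⟪y, x⟫ with hc
  have hcle : |c| ≤ 1 := by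
    have := abs_real_inner_le_norm y x
    rwa [hy, hx, mul_one] at this
  have hyy : ⟪y, y⟫ = 1 := by rw [real_inner_self_eq_norm_sq, hy]; norm_num
  have hxx : ⟪x, x⟫ = 1 := by rw [real_inner_self_eq_norm_sq, hx]; norm_num
  have hxy : ⟪x, y⟫ = c := by rw [real_inner_comm]
  have hcos : Real.cos (Real.arccos c) = c := Real.cos_arccos (abs_le.1 hcle).1 (abs_le.1 hcle).2
  have hv2 : ‖x - c • y‖ ^ 2 = 1 - c ^ 2 := by
    rw [← real_inner_self_eq_norm_sq]
    simp only [inner_sub_left, inner_sub_right, inner_smul_left, inner_smul_right, hyy, hxx, hxy,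
      ← hc, RCLike.conj_to_real]
    ring
  have hsin : Real.sin (Real.arccos c) = ‖x - c • y‖ := by
    rw [Real.sin_arccos, ← hv2, Real.sqrt_sq (norm_nonneg _)]
  by_cases hv : x - c • y = 0
  · obtain ⟨b, hb1, hb2⟩ := exists_tangent y
    refine ⟨Real.arccos c, b, Real.arccos_nonneg _, Real.arccos_le_pi _, hb1, hb2, ?_⟩
    rw [gc, hcos, hsin, hv, norm_zero, zero_smul, add_zero]
    exact sub_eq_zero.1 hv
  · have hn : ‖x - c • y‖ ≠ 0 := norm_ne_zero_iff.2 hv
    refine ⟨Real.arccos c, (‖x - c • y‖)⁻¹ • (x - c • y), Real.arccos_nonneg _,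
      Real.arccos_le_pi _, ?_, ?_, ?_⟩
    · rw [norm_smul, norm_inv, norm_norm, inv_mul_cancel₀ hn]
    · rw [inner_smul_right, inner_sub_right, inner_smul_right, hyy, ← hc]
      simp
    · rw [gc, hcos, hsin, smul_smul, mul_inv_cancel₀ hn, one_smul]
      abel

theorem arc_path {y b : E3} (hy : ‖y‖ = 1) (hb : ‖b‖ = 1) (h : ⟪y, b⟫ = 0) (s : ℝ) :
    IsPath (fun t => gc y b (s * t)) y (gc y b s) := by
  refine ⟨?_, ?_, ?_, ?_⟩
  · unfold gc
    fun_prop
  · intro t _
    rw [mem_sphere_zero_iff_norm, gc_norm hy hb h]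
  · simp [gc]
  · simp

theorem rho_le_pi (hu : Good u M) {ε μ : ℝ} (hε : 0 < ε) (hμdef : μ = ε * M)
    (hμ : μ ≤ 1 / 1000) {x y : E3} (hx : ‖x‖ = 1) (hy : ‖y‖ = 1) :
    rho (fun p => ε * u p) y x ≤ Real.pi * (1 + 2 * μ) := by
  obtain ⟨s, b, hs0, hsπ, hb, hyb, rfl⟩ := exists_dir hy hx
  refine (rho_le (arc_path hy hb hyb s)).trans ?_
  unfold len
  have hbd : ∀ t ∈ Ι (0 : ℝ) 1, ‖Real.exp (ε * u (gc y b (s * t))) *
      ‖deriv (fun t => gc y b (s * t)) t‖‖ ≤ Real.pi * (1 + 2 * μ) := by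
    intro t _
    have h1 : HasDerivAt (fun t : ℝ => s * t) s t := by
      simpa using (hasDerivAt_id t).const_mul s
    have h2 := (gc_deriv y b h1).deriv
    have h3 : ‖-(Real.sin (s * t)) • y + Real.cos (s * t) • b‖ = 1 := by
      have h4 := gc_norm hy hb hyb (s * t + Real.pi / 2)
      rw [gc, Real.cos_add_pi_div_two, Real.sin_add_pi_div_two] at h4
      exact h4
    rw [h2, norm_smul, h3, mul_one, Real.norm_eq_abs s, abs_of_nonneg hs0, Real.norm_eq_abs,
      abs_of_nonneg (by positivity)]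
    have h5 : |ε * u (gc y b (s * t))| ≤ μ := by
      rw [abs_mul, abs_of_pos hε, hμdef]
      exact mul_le_mul_of_nonneg_left (hu.bound _ (gc_norm hy hb hyb _)) hε.le
    have h6 := (exp_bounds hμ h5).2
    have hμ00 : 0 ≤ μ := (abs_nonneg _).trans h5
    have hμ01 : 0 ≤ 1 + 2 * μ := by linarith
    calc Real.exp (ε * u (gc y b (s * t))) * s ≤ (1 + 2 * μ) * Real.pi := by gcongr
      _ = _ := by ring
  have := intervalIntegral.norm_integral_le_of_norm_le_const hbd
  rw [Real.norm_eq_abs] at this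
  refine (le_abs_self _).trans (this.trans ?_)
  simp

theorem rot_sub_le {a b : E3} (ha : ‖a‖ = 1) (hb : ‖b‖ = 1) (hab : ⟪a, b⟫ = 0) {s : ℝ}
    (hs : 0 ≤ s) (p : E3) : ‖rot a b s p - p‖ ≤ ‖p‖ * s := by
  have h := norm_image_sub_le_of_norm_deriv_le_segment' (f := fun s => rot a b s p)
    (f' := fun s => Agen a b (rot a b s p)) (a := 0) (b := s) (C := ‖p‖)
    (fun x _ => (rot_hasDerivAt ha hb hab x p).hasDerivWithinAt)
    (fun x _ => by
      refine (Agen_norm_le ha hb hab _).trans ?_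
      rw [rot_norm ha hb hab]) s ⟨hs, le_rfl⟩
  simpa [rot_zero] using h

/-- Upper bound for the distance by test curves. -/
theorem upper (hu : Good u M) {ε μ : ℝ} (hε : 0 < ε) (hμdef : μ = ε * M)
    (hμ : μ ≤ 1 / 1000) {x y e : E3} (hx : ‖x‖ = 1) (hy : ‖y‖ = 1) (he : ‖e‖ = 1)
    (hye : ⟪y, e⟫ = 0) (hxy : ‖x + y‖ ≤ 50 * μ) :
    rho (fun p => ε * u p) y x ≤ Real.pi + ε * (Real.pi * ∫ t in (0 : ℝ)..1,
      u (gc y e (Real.pi * t))) - ⟪x + y, e⟫ + 20000 * μ ^ 2 := by
  have hM := hu.one_le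
  have hμ0 : 0 < μ := by rw [hμdef]; positivity
  have hπ1 := Real.pi_gt_three
  have hπ2 := Real.pi_lt_four
  have hny : ‖-y‖ = 1 := by rw [norm_neg, hy]
  obtain ⟨s, b, hs0, hsπ, hb, hyb', hxs⟩ := exists_dir hny hx
  have hyb : ⟪y, b⟫ = 0 := by
    have : ⟪-y, b⟫ = 0 := hyb'
    rw [inner_neg_left] at this
    linarith
  have hyy : ⟪y, y⟫ = 1 := by rw [real_inner_self_eq_norm_sq, hy]; norm_num
  have hee : ⟪e, e⟫ = 1 := by rw [real_inner_self_eq_norm_sq, he]; norm_num
  have hbb : ⟪b, b⟫ = 1 := by rw [real_inner_self_eq_norm_sq, hb]; norm_num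
  have hey : ⟪e, y⟫ = 0 := by rw [real_inner_comm]; exact hye
  have hby : ⟪b, y⟫ = 0 := by rw [real_inner_comm]; exact hyb
  set β := ⟪b, e⟫ with hβ
  have hβ1 : |β| ≤ 1 := by
    have := abs_real_inner_le_norm b e
    rwa [hb, he, mul_one] at this
  -- s is small
  have hchord : ‖x + y‖ ^ 2 = 2 - 2 * Real.cos s := by
    rw [hxs, ← real_inner_self_eq_norm_sq, gc]
    simp only [inner_add_left, inner_add_right, inner_smul_left, inner_smul_right, inner_neg_left,
      inner_neg_right, hyy, hbb, hyb, hby, RCLike.conj_to_real]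
    have := Real.sin_sq_add_cos_sq s
    linear_combination this
  have hs100 : s ≤ 100 * μ := by
    have h1 : 2 - 2 * Real.cos s = 4 * Real.sin (s / 2) ^ 2 := by
      have h1 := Real.cos_two_mul (s / 2)
      rw [mul_div_cancel₀ s two_ne_zero] at h1
      have h2 := Real.sin_sq_add_cos_sq (s / 2)
      rw [h1]
      linarith
    have h3 : 2 / Real.pi * (s / 2) ≤ Real.sin (s / 2) :=
      Real.mul_le_sin (by linarith) (by linarith)
    have h4 : s / Real.pi ≤ Real.sin (s / 2) := by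
      have : 2 / Real.pi * (s / 2) = s / Real.pi := by ring
      linarith
    have h5 : (2 * Real.sin (s / 2)) ^ 2 ≤ (50 * μ) ^ 2 := by
      have : ‖x + y‖ ^ 2 ≤ (50 * μ) ^ 2 := pow_le_pow_left₀ (norm_nonneg _) hxy 2
      rw [hchord, h1] at this
      linarith
    have h6 : 2 * Real.sin (s / 2) ≤ 50 * μ :=
      le_of_abs_le (abs_le_of_sq_le_sq h5 (by positivity))
    have h7 : s / Real.pi ≤ 25 * μ := by linarith
    rw [div_le_iff₀ Real.pi_pos] at h7
    nlinarith
  have hs01 : s ≤ 1 / 10 := by linarith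
  have hna : ⟪-y, b⟫ = 0 := hyb'
  -- the test curve
  have hγd : ∀ t, HasDerivAt (fun t : ℝ => gc y e (Real.pi * t))
      (Real.pi • (-(Real.sin (Real.pi * t)) • y + Real.cos (Real.pi * t) • e)) t := by
    intro t
    have h1 : HasDerivAt (fun t : ℝ => Real.pi * t) Real.pi t := by
      simpa using (hasDerivAt_id t).const_mul Real.pi
    exact gc_deriv y e h1
  have hcd : ∀ t, HasDerivAt (fun t : ℝ => rot (-y) b (s * t) (gc y e (Real.pi * t)))
      (rot (-y) b (s * t) (Real.pi • (-(Real.sin (Real.pi * t)) • y +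
        Real.cos (Real.pi * t) • e) + s • Agen (-y) b (gc y e (Real.pi * t)))) t := by
    intro t
    have h1 : HasDerivAt (fun t : ℝ => s * t) s t := by
      simpa using (hasDerivAt_id t).const_mul s
    exact rot_curve hny hb hna h1 (hγd t)
  have hpath : IsPath (fun t : ℝ => rot (-y) b (s * t) (gc y e (Real.pi * t))) y x := by
    refine ⟨?_, ?_, ?_, ?_⟩
    · rw [contDiff_one_iff_deriv]
      refine ⟨fun t => (hcd t).differentiableAt, ?_⟩
      have : deriv (fun t : ℝ => rot (-y) b (s * t) (gc y e (Real.pi * t))) =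
          fun t => rot (-y) b (s * t) (Real.pi • (-(Real.sin (Real.pi * t)) • y +
        Real.cos (Real.pi * t) • e) + s • Agen (-y) b (gc y e (Real.pi * t))) := by
        funext t; exact (hcd t).deriv
      rw [this]
      have hAc : Continuous (fun p : E3 => Agen (-y) b p) := (Agen (-y) b).continuous
      unfold rot gc
      fun_prop
    · intro t _
      rw [mem_sphere_zero_iff_norm, rot_norm hny hb hna, gc_norm hy he hye]
    · simp [rot_zero, gc]
    · simp only [mul_one]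
      have h1 : gc y e Real.pi = -y := by simp [gc]
      rw [h1, hxs, rot, gc, inner_neg_neg, inner_neg_right, hyy, hby]
      module
  refine (rho_le hpath).trans ?_
  unfold len
  set L : ℝ := Real.pi - s * β + s ^ 2 / (2 * Real.pi) with hL
  have hsβ : |s * β| ≤ s := by
    rw [abs_mul, abs_of_nonneg hs0]
    calc s * |β| ≤ s * 1 := by gcongr
      _ = s := mul_one _
  have hLpos : 0 < L := by
    have h1 := (abs_le.1 hsβ).2
    have h2 : 0 ≤ s ^ 2 / (2 * Real.pi) := by positivity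
    rw [hL]; linarith
  have hspeed : ∀ t, ‖deriv (fun t : ℝ => rot (-y) b (s * t) (gc y e (Real.pi * t))) t‖ ≤ L := by
    intro t
    rw [(hcd t).deriv, rot_norm hny hb hna]
    refine le_of_abs_le (abs_le_of_sq_le_sq ?_ hLpos.le)
    rw [← real_inner_self_eq_norm_sq, Agen_apply, gc]
    have hcs := Real.sin_sq_add_cos_sq (Real.pi * t)
    set C := Real.cos (Real.pi * t)
    set S := Real.sin (Real.pi * t)
    have hbe : ⟪e, b⟫ = β := by rw [real_inner_comm]
    simp only [inner_add_left, inner_add_right, inner_sub_left, inner_sub_right, inner_smul_left,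
      inner_smul_right, inner_neg_left, inner_neg_right, hyy, hbb, hee, hyb, hby, hye, hey, hbe,
      ← hβ, RCLike.conj_to_real]
    have hL2 : (Real.pi ^ 2 - 2 * Real.pi * s * β + s ^ 2) ≤ L ^ 2 := by
      have : L ^ 2 = (Real.pi ^ 2 - 2 * Real.pi * s * β + s ^ 2) +
          (- s * β + s ^ 2 / (2 * Real.pi)) ^ 2 := by
        rw [hL]; field_simp; ring
      rw [this]
      nlinarith [sq_nonneg (- s * β + s ^ 2 / (2 * Real.pi))]
    refine le_trans ?_ hL2
    have hβ2 : β ^ 2 ≤ 1 := by rw [← sq_abs]; nlinarith [abs_nonneg β]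
    have hS2 : S ^ 2 = 1 - C ^ 2 := by linarith
    have hkey : C ^ 2 + S ^ 2 * β ^ 2 ≤ 1 := by nlinarith [sq_nonneg S]
    have : s ^ 2 * (C ^ 2 + S ^ 2 * β ^ 2) ≤ s ^ 2 * 1 := by gcongr
    nlinarith
  have hulip : ∀ t ∈ Set.Icc (0 : ℝ) 1,
      ε * u (rot (-y) b (s * t) (gc y e (Real.pi * t))) ≤
        ε * u (gc y e (Real.pi * t)) + μ * s := by
    intro t ht
    have h1 := hu.lip (rot (-y) b (s * t) (gc y e (Real.pi * t))) (gc y e (Real.pi * t))
      (by rw [rot_norm hny hb hna, gc_norm hy he hye]) (gc_norm hy he hye _)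
    have h2 := rot_sub_le hny hb hna (mul_nonneg hs0 ht.1) (gc y e (Real.pi * t))
    rw [gc_norm hy he hye, one_mul] at h2
    have h3 : s * t ≤ s := by nlinarith [ht.2]
    have h4 := (abs_le.1 h1).2
    have h5 : M * ‖rot (-y) b (s * t) (gc y e (Real.pi * t)) - gc y e (Real.pi * t)‖ ≤ M * s := by
      gcongr; linarith
    rw [hμdef]
    nlinarith
  have hbd : ∀ t ∈ Set.Icc (0 : ℝ) 1,
      Real.exp (ε * u (rot (-y) b (s * t) (gc y e (Real.pi * t)))) *
      ‖deriv (fun t : ℝ => rot (-y) b (s * t) (gc y e (Real.pi * t))) t‖ ≤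
      (1 + ε * u (gc y e (Real.pi * t)) + (μ * s + μ ^ 2)) * L := by
    intro t ht
    have h5 : |ε * u (rot (-y) b (s * t) (gc y e (Real.pi * t)))| ≤ μ := by
      rw [abs_mul, abs_of_pos hε, hμdef]
      exact mul_le_mul_of_nonneg_left (hu.bound _ (by
        rw [rot_norm hny hb hna, gc_norm hy he hye])) hε.le
    have h6 := exp_le_quad (h5.trans (by linarith))
    have h7 : (ε * u (rot (-y) b (s * t) (gc y e (Real.pi * t)))) ^ 2 ≤ μ ^ 2 := by
      rw [← sq_abs]; exact pow_le_pow_left₀ (abs_nonneg _) h5 2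
    have h8 : Real.exp (ε * u (rot (-y) b (s * t) (gc y e (Real.pi * t)))) ≤
        1 + ε * u (gc y e (Real.pi * t)) + (μ * s + μ ^ 2) := by
      have := hulip t ht
      linarith
    have h9 : 0 ≤ 1 + ε * u (gc y e (Real.pi * t)) + (μ * s + μ ^ 2) :=
      (Real.exp_pos _).le.trans h8
    exact mul_le_mul h8 (hspeed t) (norm_nonneg _) h9
  have hgcc : Continuous (fun t : ℝ => gc y e (Real.pi * t)) := by unfold gc; fun_prop
  have huc : Continuous u := hu.smooth.continuous
  have hI : IntervalIntegrable (fun t => u (gc y e (Real.pi * t))) volume 0 1 :=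
    (huc.comp hgcc).intervalIntegrable _ _
  set I := ∫ t in (0 : ℝ)..1, u (gc y e (Real.pi * t)) with hIdef
  have hint : ∫ t in (0 : ℝ)..1, Real.exp (ε * u (rot (-y) b (s * t) (gc y e (Real.pi * t)))) *
      ‖deriv (fun t : ℝ => rot (-y) b (s * t) (gc y e (Real.pi * t))) t‖ ≤
      (1 + ε * I + (μ * s + μ ^ 2)) * L := by
    have h1 : ∫ t in (0 : ℝ)..1, (1 + ε * u (gc y e (Real.pi * t)) + (μ * s + μ ^ 2)) * L =
        (1 + ε * I + (μ * s + μ ^ 2)) * L := by
      rw [intervalIntegral.integral_mul_const, intervalIntegral.integral_add,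
        intervalIntegral.integral_add, intervalIntegral.integral_const_mul]
      · simp [hIdef]
      · exact intervalIntegrable_const
      · exact hI.const_mul _
      · exact intervalIntegrable_const.add (hI.const_mul _)
      · exact intervalIntegrable_const
    rw [← h1]
    refine intervalIntegral.integral_mono_on (by norm_num) ?_ ?_ hbd
    · have hd := hpath.c1.continuous_deriv le_rfl
      have hc := hpath.c1.continuous
      exact ((Real.continuous_exp.comp (continuous_const.mul (huc.comp hc))).mul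
        hd.norm).intervalIntegrable _ _
    · exact (((continuous_const.add (continuous_const.mul (huc.comp hgcc))).add
        continuous_const).mul continuous_const).intervalIntegrable _ _
  refine hint.trans ?_
  -- final numeric estimate
  have hIb : |ε * I| ≤ μ := by
    rw [abs_mul, abs_of_pos hε, hμdef]
    refine mul_le_mul_of_nonneg_left ?_ hε.le
    have hb2 : ∀ t ∈ Ι (0 : ℝ) 1, ‖u (gc y e (Real.pi * t))‖ ≤ M := fun t _ => by
      rw [Real.norm_eq_abs]; exact hu.bound _ (gc_norm hy he hye _)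
    have := intervalIntegral.norm_integral_le_of_norm_le_const hb2
    simpa using this
  have hin : ⟪x + y, e⟫ = Real.sin s * β := by
    rw [hxs, gc]
    simp only [inner_add_left, inner_smul_left, inner_neg_left, hye, RCLike.conj_to_real]
    rw [← hβ]; ring
  rw [hin]
  have hsin1 : Real.sin s ≤ s := Real.sin_le hs0
  have hsin2 : s - s ^ 2 ≤ Real.sin s := by
    rcases eq_or_lt_of_le hs0 with h0 | h0
    · rw [← h0]; simp
    · have := Real.sin_gt_sub_cube h0
      nlinarith [pow_pos h0 2, pow_pos h0 3]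
  have hI1 := (abs_le.1 hIb).1
  have hI2 := (abs_le.1 hIb).2
  have hb1 := (abs_le.1 hβ1).1
  have hb2 := (abs_le.1 hβ1).2
  have hs2 : s ^ 2 ≤ 10000 * μ ^ 2 := by nlinarith
  have hd1 : |Real.sin s * β - s * β| ≤ s ^ 2 := by
    rw [← sub_mul, abs_mul]
    have : |Real.sin s - s| ≤ s ^ 2 := by rw [abs_le]; constructor <;> linarith
    calc |Real.sin s - s| * |β| ≤ s ^ 2 * 1 := by gcongr
      _ = _ := mul_one _
  have hd2 := (abs_le.1 hd1).2
  have hq : s ^ 2 / (2 * Real.pi) ≤ s ^ 2 / 6 := by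
    apply div_le_div_of_nonneg_left (sq_nonneg s) (by norm_num) (by linarith)
  have hq0 : 0 ≤ s ^ 2 / (2 * Real.pi) := by positivity
  have hμs : μ * s ≤ 100 * μ ^ 2 := by nlinarith
  have hμs0 : 0 ≤ μ * s := by positivity
  have hsβ1 := (abs_le.1 hsβ).1
  have hsβ2 := (abs_le.1 hsβ).2
  -- expand
  have hexp : (1 + ε * I + (μ * s + μ ^ 2)) * L = Real.pi + ε * (Real.pi * I) - s * β +
      (s ^ 2 / (2 * Real.pi)) * (1 + ε * I + (μ * s + μ ^ 2)) + Real.pi * (μ * s + μ ^ 2) -
      s * β * (ε * I + (μ * s + μ ^ 2)) := by rw [hL]; ring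
  rw [hexp]
  have t1 : (s ^ 2 / (2 * Real.pi)) * (1 + ε * I + (μ * s + μ ^ 2)) ≤ 4000 * μ ^ 2 := by
    have a1 : 1 + ε * I + (μ * s + μ ^ 2) ≤ 2 := by nlinarith
    have a2 : s ^ 2 / (2 * Real.pi) ≤ 2000 * μ ^ 2 := by linarith
    calc (s ^ 2 / (2 * Real.pi)) * (1 + ε * I + (μ * s + μ ^ 2))
        ≤ (s ^ 2 / (2 * Real.pi)) * 2 := by gcongr
      _ ≤ 2000 * μ ^ 2 * 2 := by gcongr
      _ = _ := by ring
  have t2 : Real.pi * (μ * s + μ ^ 2) ≤ 404 * μ ^ 2 := by
    calc Real.pi * (μ * s + μ ^ 2) ≤ 4 * (100 * μ ^ 2 + μ ^ 2) := by gcongr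
      _ = _ := by ring
  have t3 : -(s * β * (ε * I + (μ * s + μ ^ 2))) ≤ 200 * μ ^ 2 := by
    have a1 : |s * β * (ε * I + (μ * s + μ ^ 2))| ≤ (100 * μ) * (2 * μ) := by
      rw [abs_mul]
      have : |ε * I + (μ * s + μ ^ 2)| ≤ 2 * μ := by
        rw [abs_le]; constructor <;> nlinarith
      gcongr
      linarith
    have := (abs_le.1 a1).1
    nlinarith
  nlinarith

end Pool.Agent.V11191.Opp
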