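import Mathlib
import Pool.Agent.V11191.Opp.Upper

open scoped RealInnerProductSpace Topology Interval
open MeasureTheory

namespace Pool.Agent.V11191.Opp

variable {u : E3 → ℝ} {M : ℝ}

theorem seg_close {μ d : ℝ} (hμ0 : 0 < μ) (hμ : μ ≤ 1 / 1000) (hdπ : |d - Real.pi| ≤ 12 * μ)
    {γ : ℝ → E3} {y τ n : E3} (hF : Fr y τ n) {t : ℝ} (ht : t ∈ Set.Icc (0 : ℝ) 1) {A : ℝ → ℝ}
    (h1 : |⟪n, γ t⟫| ≤ 9 * μ)
    (h2 : γ t = (Real.sqrt (1 - ⟪n, γ t⟫ ^ 2) * Real.cos (A t)) • y +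
          (Real.sqrt (1 - ⟪n, γ t⟫ ^ 2) * Real.sin (A t)) • τ + ⟪n, γ t⟫ • n)
    (h3 : |A t - d * t| ≤ 28 * μ) : ‖γ t - gc y τ (Real.pi * t)‖ ≤ 50 * μ := by
  set Z := ⟪n, γ t⟫ with hZ
  set r := Real.sqrt (1 - Z ^ 2) with hr
  have hZ2 : Z ^ 2 ≤ 81 * μ ^ 2 := by rw [← sq_abs]; nlinarith [abs_nonneg Z]
  have hZ1 : 0 ≤ 1 - Z ^ 2 := by nlinarith
  have hr1 : r ≤ 1 := Real.sqrt_le_one.2 (by nlinarith [sq_nonneg Z])
  have hr2 : 1 - 81 * μ ^ 2 ≤ r := by
    have : r ^ 2 = 1 - Z ^ 2 := Real.sq_sqrt hZ1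
    have : r ^ 2 ≤ r := by nlinarith [Real.sqrt_nonneg (1 - Z ^ 2)]
    linarith
  have hA : |A t - Real.pi * t| ≤ 40 * μ := by
    have e : A t - Real.pi * t = (A t - d * t) + (d - Real.pi) * t := by ring
    rw [e]
    refine (abs_add_le _ _).trans ?_
    rw [abs_mul, abs_of_nonneg ht.1]
    have : |d - Real.pi| * t ≤ 12 * μ * 1 := by
      have := ht.2
      have := ht.1
      gcongr
    linarith
  have hgcl : ‖gc y τ (A t) - gc y τ (Real.pi * t)‖ ≤ |A t - Real.pi * t| := by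
    have hd : ∀ θ, HasDerivAt (fun θ => gc y τ θ) (-(Real.sin θ) • y + Real.cos θ • τ) θ := by
      intro θ
      have := gc_deriv y τ (hasDerivAt_id θ)
      simpa using this
    have hb : ∀ θ, ‖-(Real.sin θ) • y + Real.cos θ • τ‖ ≤ 1 := by
      intro θ
      have h4 := gc_norm hF.hy hF.hτ hF.hyτ (θ + Real.pi / 2)
      rw [gc, Real.cos_add_pi_div_two, Real.sin_add_pi_div_two] at h4
      exact h4.le
    have := Convex.norm_image_sub_le_of_norm_hasDerivWithin_le (s := Set.univ)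
      (f := fun θ => gc y τ θ) (C := 1) (x := Real.pi * t) (y := A t)
      (fun θ _ => (hd θ).hasDerivWithinAt) (fun θ _ => hb θ) convex_univ trivial trivial
    simpa [Real.norm_eq_abs] using this
  have e1 : γ t - gc y τ (Real.pi * t) = (r - 1) • gc y τ (A t) + Z • n +
      (gc y τ (A t) - gc y τ (Real.pi * t)) := by
    have : γ t = r • gc y τ (A t) + Z • n := by
      rw [gc, smul_add, smul_smul, smul_smul]
      exact h2
    rw [this]
    module
  rw [e1]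
  have g1 : ‖gc y τ (A t)‖ = 1 := gc_norm hF.hy hF.hτ hF.hyτ _
  calc ‖(r - 1) • gc y τ (A t) + Z • n + (gc y τ (A t) - gc y τ (Real.pi * t))‖
      ≤ ‖(r - 1) • gc y τ (A t)‖ + ‖Z • n‖ + ‖gc y τ (A t) - gc y τ (Real.pi * t)‖ :=
        norm_add₃_le
    _ = |r - 1| + |Z| + ‖gc y τ (A t) - gc y τ (Real.pi * t)‖ := by
        rw [norm_smul, norm_smul, g1, hF.hn, mul_one, mul_one, Real.norm_eq_abs,
          Real.norm_eq_abs]
    _ ≤ 81 * μ ^ 2 + 9 * μ + 40 * μ := by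
        have : |r - 1| ≤ 81 * μ ^ 2 := by rw [abs_le]; constructor <;> nlinarith
        linarith
    _ ≤ 50 * μ := by nlinarith

theorem gc_neg_dir (y e : E3) (t : ℝ) :
    gc y (-e) (Real.pi * t) = -gc y e (Real.pi * (1 - t)) := by
  unfold gc
  have h1 : Real.pi * (1 - t) = Real.pi - Real.pi * t := by ring
  rw [h1, Real.cos_pi_sub, Real.sin_pi_sub]
  module

theorem integral_odd (hu : Good u M) (y e : E3) :
    (∫ t in (0 : ℝ)..1, u (gc y (-e) (Real.pi * t))) =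
      -∫ t in (0 : ℝ)..1, u (gc y e (Real.pi * t)) := by
  have h1 : ∀ t, u (gc y (-e) (Real.pi * t)) = -u (gc y e (Real.pi * (1 - t))) := by
    intro t; rw [gc_neg_dir, hu.odd]
  simp only [h1]
  rw [intervalIntegral.integral_neg]
  congr 1
  have := intervalIntegral.integral_comp_sub_left (a := 0) (b := 1)
    (fun t => u (gc y e (Real.pi * t))) 1
  simpa using this

/-- Lower bound for the distance in the presence of two opposite segments. -/
theorem lower (hu : Good u M) {ε μ : ℝ} (hε : 0 < ε) (hμdef : μ = ε * M)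
    (hμ : μ ≤ 1 / 1000) {x y : E3} (hx : ‖x‖ = 1) (hy : ‖y‖ = 1) (hxy : x ≠ y)
    {γ₁ γ₂ : ℝ → E3} (h₁ : IsSegment (fun p => ε * u p) γ₁ y x)
    (h₂ : IsSegment (fun p => ε * u p) γ₂ y x)
    (hang : InnerProductGeometry.angle (deriv γ₁ 0) (deriv γ₂ 0) = Real.pi) :
    ‖x + y‖ ≤ 50 * μ ∧ Real.pi - 500 * μ ^ 2 ≤ rho (fun p => ε * u p) y x := by
  have hM := hu.one_le
  have hμ0 : 0 < μ := by rw [hμdef]; positivity
  have hπ1 := Real.pi_gt_three
  have hπ2 := Real.pi_lt_d2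
  set d := rho (fun p => ε * u p) y x with hd
  have h0mem : (0 : ℝ) ∈ Set.Icc (0 : ℝ) 1 := ⟨le_rfl, by norm_num⟩
  have h1mem : (1 : ℝ) ∈ Set.Icc (0 : ℝ) 1 := ⟨by norm_num, le_rfl⟩
  obtain ⟨hne, r, hr, hr2⟩ := InnerProductGeometry.angle_eq_pi_iff.1 hang
  have s1 := h₁.speed 0 h0mem
  have s2 := h₂.speed 0 h0mem
  rw [h₁.path.start, ← hd] at s1
  rw [h₂.path.start, ← hd] at s2
  have hd0 : 0 < d := by
    rw [← s1]
    have : 0 < ‖deriv γ₁ 0‖ := norm_pos_iff.2 hne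
    positivity
  have hdle : d ≤ Real.pi * (1 + 2 * μ) := rho_le_pi hu hε hμdef hμ hx hy
  have hd4 : d ≤ 4 := by nlinarith
  set v := ‖deriv γ₁ 0‖ with hv
  have hvpos : 0 < v := norm_pos_iff.2 hne
  have hv2 : ‖deriv γ₂ 0‖ = v := by
    have : Real.exp (ε * u y) * ‖deriv γ₂ 0‖ = Real.exp (ε * u y) * v := by rw [s2, s1]
    exact mul_left_cancel₀ (Real.exp_pos _).ne' this
  set τ : E3 := v⁻¹ • deriv γ₁ 0 with hτ
  have hdir1 : deriv γ₁ 0 = v • τ := by
    rw [hτ, smul_smul, mul_inv_cancel₀ hvpos.ne', one_smul]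
  have hτ1 : ‖τ‖ = 1 := by
    rw [hτ, norm_smul, norm_inv, Real.norm_eq_abs, abs_of_pos hvpos, ← hv,
      inv_mul_cancel₀ hvpos.ne']
  have hr1 : r = -1 := by
    have : ‖deriv γ₂ 0‖ = |r| * v := by rw [hr2, norm_smul, Real.norm_eq_abs]
    rw [hv2, abs_of_neg hr] at this
    have : (-r) * v = 1 * v := by linarith
    have := mul_right_cancel₀ hvpos.ne' this
    linarith
  have hdir2 : deriv γ₂ 0 = v • (-τ) := by
    rw [hr2, hr1, hdir1]; module
  -- τ is tangent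
  have hyτ : ⟪y, τ⟫ = 0 := by
    have hγD : HasDerivAt γ₁ (deriv γ₁ 0) 0 :=
      ((h₁.path.c1.differentiable one_ne_zero) 0).hasDerivAt
    have hns : HasDerivAt (fun t => ‖γ₁ t‖ ^ 2) (2 * ⟪γ₁ 0, deriv γ₁ 0⟫) 0 := hγD.norm_sq
    have hw : HasDerivWithinAt (fun t => ‖γ₁ t‖ ^ 2) (2 * ⟪γ₁ 0, deriv γ₁ 0⟫)
        (Set.Icc 0 1) 0 := hns.hasDerivWithinAt
    have hw2 : HasDerivWithinAt (fun _ : ℝ => (1 : ℝ)) (2 * ⟪γ₁ 0, deriv γ₁ 0⟫)
        (Set.Icc 0 1) 0 := by
      refine hw.congr ?_ ?_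
      · intro t ht
        have := h₁.path.mem t ht
        rw [mem_sphere_zero_iff_norm] at this
        rw [this]; norm_num
      · have := h₁.path.mem 0 h0mem
        rw [mem_sphere_zero_iff_norm] at this
        rw [this]; norm_num
    have huniq : UniqueDiffWithinAt ℝ (Set.Icc (0 : ℝ) 1) 0 :=
      (uniqueDiffOn_Icc (by norm_num)) 0 h0mem
    have h5 := huniq.eq_deriv _ hw2 (hasDerivWithinAt_const 0 _ (1 : ℝ))
    rw [h₁.path.start, hdir1, inner_smul_right] at h5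
    have h6 : v * ⟪y, τ⟫ = 0 := by linarith
    exact (mul_eq_zero.1 h6).resolve_left hvpos.ne'
  obtain ⟨n, hF⟩ := exists_frame hy hτ1 hyτ
  have hF2 : Fr y (-τ) n := ⟨hy, by rw [norm_neg, hτ1], hF.hn,
    by rw [inner_neg_right, hyτ, neg_zero], hF.hyn, by rw [inner_neg_left, hF.hτn, neg_zero]⟩
  obtain ⟨A₁, hA1, hA1p, hA1i⟩ := seg_est hu hε hμdef hμ hF h₁ hd hd0 hd4 hvpos hdir1
  obtain ⟨A₂, hA2, hA2p, hA2i⟩ := seg_est hu hε hμdef hμ hF2 h₂ hd hd0 hd4 hvpos hdir2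
  -- end points
  have e1 := (hA1 1 h1mem).2.1
  have e2 := (hA2 1 h1mem).2.1
  rw [h₁.path.finish] at e1
  rw [h₂.path.finish] at e2
  set Z := ⟪n, x⟫ with hZ
  set ρ := Real.sqrt (1 - Z ^ 2) with hρ
  have hZb : |Z| ≤ 9 * μ := by
    have := (hA1 1 h1mem).1
    rwa [h₁.path.finish] at this
  have hρpos : 0 < ρ := by
    apply Real.sqrt_pos.2
    have : Z ^ 2 ≤ 81 * μ ^ 2 := by rw [← sq_abs]; nlinarith [abs_nonneg Z]
    nlinarith
  have hyy : ⟪y, y⟫ = 1 := by rw [real_inner_self_eq_norm_sq, hy]; norm_num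
  have hττ : ⟪τ, τ⟫ = 1 := by rw [real_inner_self_eq_norm_sq, hτ1]; norm_num
  have hτy : ⟪τ, y⟫ = 0 := by rw [real_inner_comm]; exact hyτ
  have hcosE : ρ * Real.cos (A₁ 1) = ρ * Real.cos (A₂ 1) := by
    have a1 := congrArg (fun q => ⟪y, q⟫) e1
    have a2 := congrArg (fun q => ⟪y, q⟫) e2
    simp only [inner_add_right, inner_smul_right, inner_neg_right, hyy, hyτ, hF.hyn] at a1 a2
    linarith
  have hsinE : ρ * Real.sin (A₁ 1) = -(ρ * Real.sin (A₂ 1)) := by
    have a1 := congrArg (fun q => ⟪τ, q⟫) e1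
    have a2 := congrArg (fun q => ⟪τ, q⟫) e2
    simp only [inner_add_right, inner_smul_right, inner_neg_right, hττ, hτy, hF.hτn] at a1 a2
    linarith
  have hcosE' : Real.cos (A₁ 1) = Real.cos (A₂ 1) := mul_left_cancel₀ hρpos.ne' hcosE
  have hsinE' : Real.sin (A₁ 1) = -Real.sin (A₂ 1) := by
    have : ρ * Real.sin (A₁ 1) = ρ * (-Real.sin (A₂ 1)) := by rw [hsinE]; ring
    exact mul_left_cancel₀ hρpos.ne' this
  have hcos1 : Real.cos (A₁ 1 + A₂ 1) = 1 := by
    rw [Real.cos_add, hcosE', hsinE']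
    have := Real.sin_sq_add_cos_sq (A₂ 1)
    linarith
  have h2π : 2 * Real.pi ≤ A₁ 1 + A₂ 1 := by
    obtain ⟨k, hk⟩ := (Real.cos_eq_one_iff _).1 hcos1
    have hkpos : 0 < (k : ℝ) * (2 * Real.pi) := by rw [hk]; linarith
    have hk0 : (0 : ℝ) < k := by
      by_contra hcon
      push Not at hcon
      have : (k : ℝ) * (2 * Real.pi) ≤ 0 :=
        mul_nonpos_of_nonpos_of_nonneg hcon (by positivity)
      linarith
    have hk1 : (1 : ℝ) ≤ k := by
      have : (0 : ℤ) < k := by exact_mod_cast hk0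
      exact_mod_cast this
    rw [← hk]
    nlinarith
  -- crude lower bound on d
  have hb1 := (abs_le.1 (hA1 1 h1mem).2.2).2
  have hb2 := (abs_le.1 (hA2 1 h1mem).2.2).2
  rw [mul_one] at hb1 hb2
  -- |d - π| ≤ 12 μ  needs a relative estimate
  have hup : ∀ (γ : ℝ → E3), (∀ t ∈ Set.Icc (0 : ℝ) 1, ‖γ t‖ = 1) → Continuous γ →
      (∫ t in (0 : ℝ)..1, Real.exp (-(ε * u (γ t)))) ≤ 1 + 2 * μ := by
    intro γ hγn hγc
    have huc : Continuous u := hu.smooth.continuous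
    have hm : (∫ t in (0 : ℝ)..1, Real.exp (-(ε * u (γ t)))) ≤
        ∫ t in (0 : ℝ)..1, (1 + 2 * μ) := by
      refine intervalIntegral.integral_mono_on (by norm_num) ?_ intervalIntegrable_const ?_
      · exact (Real.continuous_exp.comp (continuous_const.mul
          (huc.comp hγc)).neg).intervalIntegrable _ _
      · intro t ht
        refine (exp_bounds hμ ?_).2
        rw [abs_neg, abs_mul, abs_of_pos hε, hμdef]
        exact mul_le_mul_of_nonneg_left (hu.bound _ (hγn t ht)) hε.le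
    simpa using hm
  have hn1 : ∀ t ∈ Set.Icc (0 : ℝ) 1, ‖γ₁ t‖ = 1 := fun t ht => by
    have := h₁.path.mem t ht
    rwa [mem_sphere_zero_iff_norm] at this
  have hn2 : ∀ t ∈ Set.Icc (0 : ℝ) 1, ‖γ₂ t‖ = 1 := fun t ht => by
    have := h₂.path.mem t ht
    rwa [mem_sphere_zero_iff_norm] at this
  have hu1 := hup γ₁ hn1 h₁.path.c1.continuous
  have hu2 := hup γ₂ hn2 h₂.path.c1.continuous
  have hkey1 : 2 * Real.pi * (1 - 81 * μ ^ 2) ≤
      d * ((∫ t in (0 : ℝ)..1, Real.exp (-(ε * u (γ₁ t)))) +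
        ∫ t in (0 : ℝ)..1, Real.exp (-(ε * u (γ₂ t)))) := by
    have : 0 ≤ 1 - 81 * μ ^ 2 := by nlinarith
    nlinarith
  have hdπ : |d - Real.pi| ≤ 12 * μ := by
    have h5 : 2 * Real.pi * (1 - 81 * μ ^ 2) ≤ d * (2 * (1 + 2 * μ)) := by
      refine hkey1.trans ?_
      apply mul_le_mul_of_nonneg_left _ hd0.le
      linarith
    rw [abs_le]
    constructor
    · have hμ2 : μ ^ 2 ≤ μ / 1000 := by nlinarith
      nlinarith
    · nlinarith
  have hc1 : ∀ t ∈ Set.Icc (0 : ℝ) 1, ‖γ₁ t - gc y τ (Real.pi * t)‖ ≤ 50 * μ := fun t ht =>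
    seg_close hμ0 hμ hdπ hF ht (hA1 t ht).1 (hA1 t ht).2.1 (hA1 t ht).2.2
  have hc2 : ∀ t ∈ Set.Icc (0 : ℝ) 1, ‖γ₂ t - gc y (-τ) (Real.pi * t)‖ ≤ 50 * μ := fun t ht =>
    seg_close hμ0 hμ hdπ hF2 ht (hA2 t ht).1 (hA2 t ht).2.1 (hA2 t ht).2.2
  refine ⟨?_, ?_⟩
  · have := hc1 1 h1mem
    rw [h₁.path.finish, mul_one] at this
    have h6 : gc y τ Real.pi = -y := by simp [gc]
    rw [h6, sub_neg_eq_add] at this
    exact this
  · -- second order estimate
    have huc : Continuous u := hu.smooth.continuous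
    have hquad : ∀ (γ : ℝ → E3) (e : E3), ‖e‖ = 1 → ⟪y, e⟫ = 0 →
        (∀ t ∈ Set.Icc (0 : ℝ) 1, ‖γ t‖ = 1) → Continuous γ →
        (∀ t ∈ Set.Icc (0 : ℝ) 1, ‖γ t - gc y e (Real.pi * t)‖ ≤ 50 * μ) →
        (∫ t in (0 : ℝ)..1, Real.exp (-(ε * u (γ t)))) ≤
          1 - ε * (∫ t in (0 : ℝ)..1, u (gc y e (Real.pi * t))) + 51 * μ ^ 2 := by
      intro γ e he hye hγn hγc hcl
      have hgcc : Continuous (fun t : ℝ => gc y e (Real.pi * t)) := by unfold gc; fun_prop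
      have hI : IntervalIntegrable (fun t => u (gc y e (Real.pi * t))) volume 0 1 :=
        (huc.comp hgcc).intervalIntegrable _ _
      have hm : (∫ t in (0 : ℝ)..1, Real.exp (-(ε * u (γ t)))) ≤
          ∫ t in (0 : ℝ)..1, (1 - ε * u (gc y e (Real.pi * t)) + 51 * μ ^ 2) := by
        refine intervalIntegral.integral_mono_on (by norm_num) ?_ ?_ ?_
        · exact (Real.continuous_exp.comp (continuous_const.mul
            (huc.comp hγc)).neg).intervalIntegrable _ _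
        · exact ((continuous_const.sub (continuous_const.mul (huc.comp hgcc))).add
            continuous_const).intervalIntegrable _ _
        · intro t ht
          have h5 : |-(ε * u (γ t))| ≤ μ := by
            rw [abs_neg, abs_mul, abs_of_pos hε, hμdef]
            exact mul_le_mul_of_nonneg_left (hu.bound _ (hγn t ht)) hε.le
          have h6 := exp_le_quad (h5.trans (by linarith))
          have h7 : (-(ε * u (γ t))) ^ 2 ≤ μ ^ 2 := by
            rw [← sq_abs]; exact pow_le_pow_left₀ (abs_nonneg _) h5 2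
          have h8 := hu.lip (γ t) (gc y e (Real.pi * t)) (hγn t ht) (gc_norm hy he hye _)
          have h9 := (abs_le.1 h8).1
          have h10 := hcl t ht
          have h11 : M * ‖γ t - gc y e (Real.pi * t)‖ ≤ M * (50 * μ) := by gcongr
          have h12 : ε * (M * (50 * μ)) = 50 * μ ^ 2 := by rw [hμdef]; ring
          have h13 : ε * (u (gc y e (Real.pi * t)) - u (γ t)) ≤ ε * (M * (50 * μ)) := by
            apply mul_le_mul_of_nonneg_left _ hε.le
            linarith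
          linarith
      refine hm.trans (le_of_eq ?_)
      rw [intervalIntegral.integral_add, intervalIntegral.integral_sub,
        intervalIntegral.integral_const_mul]
      · simp
      · exact intervalIntegrable_const
      · exact hI.const_mul _
      · exact intervalIntegrable_const.sub (hI.const_mul _)
      · exact intervalIntegrable_const
    have q1 := hquad γ₁ τ hτ1 hyτ hn1 h₁.path.c1.continuous hc1
    have q2 := hquad γ₂ (-τ) hF2.hτ hF2.hyτ hn2 h₂.path.c1.continuous hc2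
    rw [integral_odd hu] at q2
    have h5 : 2 * Real.pi * (1 - 81 * μ ^ 2) ≤ d * (2 + 102 * μ ^ 2) := by
      refine hkey1.trans ?_
      apply mul_le_mul_of_nonneg_left _ hd0.le
      linarith
    have hμ2 : 0 ≤ μ ^ 2 := sq_nonneg μ
    nlinarith

end Pool.Agent.V11191.Opp
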