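import Mathlib
import Pool.Agent.V11191.Opp.Lower
import Pool.Agent.V11191.Opp.Alg

open scoped RealInnerProductSpace Topology Interval
open MeasureTheory

namespace Pool.Agent.V11191.Opp

/-- the perturbation -/
noncomputable def uu (p : E3) : ℝ := ∑ i : Fin 3, (p i ^ 5 + 100 * p i ^ 3)

theorem uu_smooth : ContDiff ℝ (⊤ : ℕ∞) uu := by
  unfold uu
  refine ContDiff.sum fun i _ => ?_
  have h : ContDiff ℝ (⊤ : ℕ∞) (fun p : E3 => p i) := by fun_prop
  exact (h.pow 5).add (contDiff_const.mul (h.pow 3))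

theorem uu_odd (p : E3) : uu (-p) = -uu p := by
  unfold uu
  rw [← Finset.sum_neg_distrib]
  refine Finset.sum_congr rfl fun i _ => ?_
  simp only [PiLp.neg_apply]
  ring

theorem exists_good {u : E3 → ℝ} (hu : ContDiff ℝ 1 u) (hodd : ∀ p, u (-p) = -u p) :
    ∃ M, Good u M := by
  have hK : IsCompact (Metric.closedBall (0 : E3) 1) := isCompact_closedBall _ _
  obtain ⟨C1, hC1⟩ := hK.exists_bound_of_continuousOn hu.continuous.continuousOn
  obtain ⟨C2, hC2⟩ := hK.exists_bound_of_continuousOn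
    (hu.continuous_fderiv one_ne_zero).continuousOn
  have hmem : ∀ p : E3, ‖p‖ = 1 → p ∈ Metric.closedBall (0 : E3) 1 := fun p hp => by simp [hp]
  refine ⟨max 1 (max C1 C2), hu, le_max_left _ _, ?_, ?_, ?_, hodd⟩
  · intro p hp
    have := hC1 p (hmem p hp)
    rw [Real.norm_eq_abs] at this
    exact this.trans ((le_max_left _ _).trans (le_max_right _ _))
  · intro p v hp
    have := hC2 p (hmem p hp)
    have h2 := (fderiv ℝ u p).le_opNorm v
    rw [Real.norm_eq_abs] at h2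
    refine h2.trans ?_
    have h3 : C2 ≤ max 1 (max C1 C2) := (le_max_right _ _).trans (le_max_right _ _)
    have := this.trans h3
    gcongr
  · intro p q hp hq
    have := (convex_closedBall (0 : E3) 1).norm_image_sub_le_of_norm_fderiv_le (𝕜 := ℝ)
      (f := u) (C := max 1 (max C1 C2))
      (fun x _ => (hu.differentiable one_ne_zero) x)
      (fun x hx => (hC2 x hx).trans ((le_max_right _ _).trans (le_max_right _ _)))
      (hmem q hq) (hmem p hp)
    rwa [Real.norm_eq_abs] at this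

/-- The half-circle transform, in closed form. -/
noncomputable def PP (y e : E3) : ℝ :=
  ∑ i : Fin 3, (16 / 15 * e i ^ 5 + (8 / 3 * y i ^ 2 + 400 / 3) * e i ^ 3 +
    (2 * y i ^ 4 + 200 * y i ^ 2) * e i)

theorem PP_cont : Continuous (fun x : E3 × E3 => PP x.1 x.2) := by
  unfold PP
  fun_prop

theorem int_pow5 (a b : ℝ) : Real.pi * ∫ t in (0 : ℝ)..1,
    (Real.cos (Real.pi * t) * a + Real.sin (Real.pi * t) * b) ^ 5 =
      16 / 15 * b ^ 5 + 8 / 3 * a ^ 2 * b ^ 3 + 2 * a ^ 4 * b := by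
  set D : ℝ → ℝ := fun t => -(Real.sin (Real.pi * t)) * a + Real.cos (Real.pi * t) * b with hD
  have hl : ∀ t, HasDerivAt (fun t : ℝ => Real.pi * t) Real.pi t := fun t => by
    simpa using (hasDerivAt_id t).const_mul Real.pi
  have hDd : ∀ t, HasDerivAt D
      (-(Real.pi * (Real.cos (Real.pi * t) * a + Real.sin (Real.pi * t) * b))) t := by
    intro t
    have h1 := (((Real.hasDerivAt_sin (Real.pi * t)).comp t (hl t)).neg.mul_const a)
    have h2 := ((Real.hasDerivAt_cos (Real.pi * t)).comp t (hl t)).mul_const b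
    refine (h1.add h2).congr_deriv ?_
    ring
  have hG : ∀ t, HasDerivAt (fun t => -((a ^ 2 + b ^ 2) ^ 2 * D t -
      2 / 3 * (a ^ 2 + b ^ 2) * D t ^ 3 + D t ^ 5 / 5))
      (Real.pi * (Real.cos (Real.pi * t) * a + Real.sin (Real.pi * t) * b) ^ 5) t := by
    intro t
    have h1 := (((hDd t).const_mul ((a ^ 2 + b ^ 2) ^ 2)).sub
      (((hDd t).pow 3).const_mul (2 / 3 * (a ^ 2 + b ^ 2)))).add (((hDd t).pow 5).div_const 5)
    refine h1.neg.congr_deriv ?_
    have hcs := Real.sin_sq_add_cos_sq (Real.pi * t)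
    set c := Real.cos (Real.pi * t)
    set s := Real.sin (Real.pi * t)
    have hR : a ^ 2 + b ^ 2 - (-s * a + c * b) ^ 2 = (c * a + s * b) ^ 2 := by
      linear_combination (-(a ^ 2 + b ^ 2)) * hcs
    have e : Real.pi * (c * a + s * b) ^ 5 =
        Real.pi * (c * a + s * b) * ((c * a + s * b) ^ 2) ^ 2 := by ring
    rw [e, ← hR]
    simp only [hD]
    push_cast
    ring
  rw [← intervalIntegral.integral_const_mul, intervalIntegral.integral_eq_sub_of_hasDerivAt
    (fun t _ => hG t)]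
  · simp [hD]
    ring
  · apply Continuous.intervalIntegrable
    fun_prop

theorem int_pow3 (a b : ℝ) : Real.pi * ∫ t in (0 : ℝ)..1,
    (Real.cos (Real.pi * t) * a + Real.sin (Real.pi * t) * b) ^ 3 =
      4 / 3 * b ^ 3 + 2 * a ^ 2 * b := by
  set D : ℝ → ℝ := fun t => -(Real.sin (Real.pi * t)) * a + Real.cos (Real.pi * t) * b with hD
  have hl : ∀ t, HasDerivAt (fun t : ℝ => Real.pi * t) Real.pi t := fun t => by
    simpa using (hasDerivAt_id t).const_mul Real.pi
  have hDd : ∀ t, HasDerivAt D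
      (-(Real.pi * (Real.cos (Real.pi * t) * a + Real.sin (Real.pi * t) * b))) t := by
    intro t
    have h1 := (((Real.hasDerivAt_sin (Real.pi * t)).comp t (hl t)).neg.mul_const a)
    have h2 := ((Real.hasDerivAt_cos (Real.pi * t)).comp t (hl t)).mul_const b
    refine (h1.add h2).congr_deriv ?_
    ring
  have hG : ∀ t, HasDerivAt (fun t => -((a ^ 2 + b ^ 2) * D t - D t ^ 3 / 3))
      (Real.pi * (Real.cos (Real.pi * t) * a + Real.sin (Real.pi * t) * b) ^ 3) t := by
    intro t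
    have h1 := ((hDd t).const_mul (a ^ 2 + b ^ 2)).sub (((hDd t).pow 3).div_const 3)
    refine h1.neg.congr_deriv ?_
    have hcs := Real.sin_sq_add_cos_sq (Real.pi * t)
    set c := Real.cos (Real.pi * t)
    set s := Real.sin (Real.pi * t)
    have hR : a ^ 2 + b ^ 2 - (-s * a + c * b) ^ 2 = (c * a + s * b) ^ 2 := by
      linear_combination (-(a ^ 2 + b ^ 2)) * hcs
    have e : Real.pi * (c * a + s * b) ^ 3 =
        Real.pi * (c * a + s * b) * ((c * a + s * b) ^ 2) := by ring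
    rw [e, ← hR]
    simp only [hD]
    push_cast
    ring
  rw [← intervalIntegral.integral_const_mul, intervalIntegral.integral_eq_sub_of_hasDerivAt
    (fun t _ => hG t)]
  · simp [hD]
    ring
  · apply Continuous.intervalIntegrable
    fun_prop

theorem PP_eq (y e : E3) : Real.pi * ∫ t in (0 : ℝ)..1, uu (gc y e (Real.pi * t)) = PP y e := by
  have h1 : ∀ t, uu (gc y e (Real.pi * t)) = ∑ i : Fin 3,
      ((Real.cos (Real.pi * t) * y i + Real.sin (Real.pi * t) * e i) ^ 5 +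
        100 * (Real.cos (Real.pi * t) * y i + Real.sin (Real.pi * t) * e i) ^ 3) := by
    intro t
    simp [uu, gc]
  simp only [h1]
  rw [intervalIntegral.integral_finsetSum, Finset.mul_sum]
  · unfold PP
    refine Finset.sum_congr rfl fun i _ => ?_
    rw [intervalIntegral.integral_add, intervalIntegral.integral_const_mul, mul_add, int_pow5]
    · have := int_pow3 (y i) (e i)
      linear_combination 100 * this
    · apply Continuous.intervalIntegrable; fun_prop
    · apply Continuous.intervalIntegrable; fun_prop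
  · intro i _
    apply Continuous.intervalIntegrable; fun_prop

/-- The half-circle transform is never linear. -/
theorem PP_not_linear {y τ n w : E3} (hF : Fr y τ n)
    (h : ∀ a b : ℝ, a ^ 2 + b ^ 2 = 1 → PP y (a • τ + b • n) = ⟪w, a • τ + b • n⟫) : False := by
  -- homogeneous identity with b = 1
  have h1 : ∀ x : ℝ, ∑ i : Fin 3, (16 / 15 * (τ i * x + n i) ^ 5 +
      (8 / 3 * y i ^ 2 + 400 / 3) * (τ i * x + n i) ^ 3 * (x ^ 2 + 1) +
      (2 * y i ^ 4 + 200 * y i ^ 2) * (τ i * x + n i) * (x ^ 2 + 1) ^ 2) -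
      (⟪w, τ⟫ * x + ⟪w, n⟫) * (x ^ 2 + 1) ^ 2 = 0 := by
    intro x
    set r := Real.sqrt (x ^ 2 + 1) with hr
    have hr0 : 0 < r := Real.sqrt_pos.2 (by positivity)
    have hr2 : x ^ 2 + 1 = r ^ 2 := (Real.sq_sqrt (by positivity)).symm
    have hab : (x / r) ^ 2 + (1 / r) ^ 2 = 1 := by
      rw [div_pow, div_pow, ← add_div, one_pow, hr2, div_self (by positivity)]
    have h2 := h (x / r) (1 / r) hab
    unfold PP at h2
    rw [inner_add_right, inner_smul_right, inner_smul_right] at h2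
    have h3 : ∀ i, ((x / r) • τ + (1 / r) • n) i = (τ i * x + n i) / r := by
      intro i
      simp only [PiLp.add_apply, PiLp.smul_apply, smul_eq_mul]
      field_simp
    simp only [h3] at h2
    simp only [hr2]
    have h4 : ∑ i : Fin 3, (16 / 15 * (τ i * x + n i) ^ 5 +
      (8 / 3 * y i ^ 2 + 400 / 3) * (τ i * x + n i) ^ 3 * r ^ 2 +
      (2 * y i ^ 4 + 200 * y i ^ 2) * (τ i * x + n i) * (r ^ 2) ^ 2) =
      r ^ 5 * ∑ i : Fin 3, (16 / 15 * ((τ i * x + n i) / r) ^ 5 +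
        (8 / 3 * y i ^ 2 + 400 / 3) * ((τ i * x + n i) / r) ^ 3 +
        (2 * y i ^ 4 + 200 * y i ^ 2) * ((τ i * x + n i) / r)) := by
      rw [Finset.mul_sum]
      refine Finset.sum_congr rfl fun i _ => ?_
      field_simp
    rw [h4, h2]
    field_simp
    ring
  -- polynomial identity
  let P : Polynomial ℝ := ∑ i : Fin 3, (Polynomial.C (16 / 15) *
      (Polynomial.C (τ i) * Polynomial.X + Polynomial.C (n i)) ^ 5 +
      Polynomial.C (8 / 3 * y i ^ 2 + 400 / 3) *
        (Polynomial.C (τ i) * Polynomial.X + Polynomial.C (n i)) ^ 3 * (Polynomial.X ^ 2 + 1) +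
      Polynomial.C (2 * y i ^ 4 + 200 * y i ^ 2) *
        (Polynomial.C (τ i) * Polynomial.X + Polynomial.C (n i)) * (Polynomial.X ^ 2 + 1) ^ 2) -
      (Polynomial.C ⟪w, τ⟫ * Polynomial.X + Polynomial.C ⟪w, n⟫) * (Polynomial.X ^ 2 + 1) ^ 2
  have hP : P = 0 := by
    apply Polynomial.funext
    intro x
    have := h1 x
    simp only [P, Polynomial.eval_sub, Polynomial.eval_finsetSum, Polynomial.eval_add,
      Polynomial.eval_mul, Polynomial.eval_C, Polynomial.eval_pow, Polynomial.eval_X,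
      Polynomial.eval_one, Polynomial.eval_zero]
    exact this
  have hI : (Complex.I : ℂ) ^ 2 + 1 = 0 := by rw [Complex.I_sq]; ring
  have e1 : Polynomial.aeval Complex.I P = 0 := by rw [hP]; simp
  have e2 : Polynomial.aeval Complex.I (Polynomial.derivative P) = 0 := by rw [hP]; simp
  simp only [P, map_sub, map_sum, map_add, map_mul, map_pow, Polynomial.aeval_X,
    Polynomial.aeval_C, map_one, hI, Complex.coe_algebraMap] at e1
  simp only [P, Polynomial.derivative_sub, Polynomial.derivative_sum, Polynomial.derivative_add,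
    Polynomial.derivative_mul, Polynomial.derivative_C, Polynomial.derivative_X_pow,
    Polynomial.derivative_pow, Polynomial.derivative_X, Polynomial.derivative_one,
    map_sub, map_sum, map_add, map_mul, map_pow, Polynomial.aeval_X,
    Polynomial.aeval_C, map_one, map_zero, hI, Complex.coe_algebraMap] at e2
  rw [Fin.sum_univ_three] at e1 e2
  -- frame identities in coordinates
  have hττ : ⟪τ, τ⟫ = 1 := by rw [real_inner_self_eq_norm_sq, hF.hτ]; norm_num
  have hnn : ⟪n, n⟫ = 1 := by rw [real_inner_self_eq_norm_sq, hF.hn]; norm_num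
  have hτn := hF.hτn
  have hcol : ∀ i : Fin 3, y i ^ 2 + τ i ^ 2 + n i ^ 2 = 1 := by
    intro i
    have := hF.norm_sq (EuclideanSpace.single i (1 : ℝ))
    rw [EuclideanSpace.inner_single_right, EuclideanSpace.inner_single_right,
      EuclideanSpace.inner_single_right, EuclideanSpace.norm_single] at this
    simp only [one_mul, RCLike.conj_to_real, norm_one, one_pow] at this
    linarith
  simp only [PiLp.inner_apply, Fin.sum_univ_three, RCLike.inner_apply, RCLike.conj_to_real] at hττ hnn hτn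
  set z : Fin 3 → ℂ := fun i => (n i : ℂ) + (τ i : ℂ) * Complex.I with hz
  have hns : ∀ i, ‖z i‖ ^ 2 = n i ^ 2 + τ i ^ 2 := by
    intro i
    rw [← Complex.normSq_eq_norm_sq, hz]
    simp only
    rw [Complex.normSq_add_mul_I]
  have hzc : ∀ i, (τ i : ℂ) * Complex.I + (n i : ℂ) = z i := fun i => by rw [hz]; ring
  have H1 : z 0 ^ 2 + z 1 ^ 2 + z 2 ^ 2 = 0 := by
    have a1 : ((τ 0 * τ 0 + τ 1 * τ 1 + τ 2 * τ 2 : ℝ) : ℂ) = 1 := by rw [hττ]; simp
    have a2 : ((n 0 * n 0 + n 1 * n 1 + n 2 * n 2 : ℝ) : ℂ) = 1 := by rw [hnn]; simp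
    have a3 : ((n 0 * τ 0 + n 1 * τ 1 + n 2 * τ 2 : ℝ) : ℂ) = 0 := by rw [hτn]; simp
    push_cast at a1 a2 a3
    simp only [hz]
    linear_combination a2 - a1 + 2 * Complex.I * a3 +
      ((τ 0 : ℂ) ^ 2 + (τ 1 : ℂ) ^ 2 + (τ 2 : ℂ) ^ 2) * hI
  have H2 : z 0 ^ 5 + z 1 ^ 5 + z 2 ^ 5 = 0 := by
    simp only [hzc] at e1
    push_cast at e1
    linear_combination (15 / 16 : ℂ) * e1
  have H4 : ‖z 0‖ ^ 2 + ‖z 1‖ ^ 2 + ‖z 2‖ ^ 2 = 2 := by
    rw [hns, hns, hns]; linarith
  have H3 : 102 * (z 0 ^ 3 + z 1 ^ 3 + z 2 ^ 3) =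
      z 0 ^ 3 * (‖z 0‖ ^ 2 : ℝ) + z 1 ^ 3 * (‖z 1‖ ^ 2 : ℝ) + z 2 ^ 3 * (‖z 2‖ ^ 2 : ℝ) := by
    clear e1 H1 H4 h h1 hP
    simp only [hzc] at e2
    push_cast at e2
    have hk : ∀ i, z i * (2 * Complex.I * (τ i : ℂ)) = z i ^ 2 - ((‖z i‖ ^ 2 : ℝ) : ℂ) := by
      intro i
      rw [hns]
      simp only [hz]
      push_cast
      linear_combination ((τ i : ℂ) ^ 2) * hI
    have hy : ∀ i, (y i : ℂ) ^ 2 = 1 - ((‖z i‖ ^ 2 : ℝ) : ℂ) := by
      intro i
      have := hcol i
      have h2 : y i ^ 2 = 1 - ‖z i‖ ^ 2 := by rw [hns]; linarith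
      have h3 := congrArg (fun r : ℝ => (r : ℂ)) h2
      push_cast at h3 ⊢
      exact h3
    linear_combination H2 - (3 / 8 : ℂ) * Complex.I * e2 + z 0 ^ 3 * hk 0 + z 1 ^ 3 * hk 1 +
      z 2 ^ 3 * hk 2 - 2 * z 0 ^ 3 * hy 0 - 2 * z 1 ^ 3 * hy 1 - 2 * z 2 ^ 3 * hy 2 +
      (3 / 4 : ℂ) * ((8 / 3 * (y 0 : ℂ) ^ 2 + 400 / 3) * z 0 ^ 3 +
      (8 / 3 * (y 1 : ℂ) ^ 2 + 400 / 3) * z 1 ^ 3 +
      (8 / 3 * (y 2 : ℂ) ^ 2 + 400 / 3) * z 2 ^ 3) * hI
  exact alg_contra H1 H2 H3 H4

/-- The key consequence of property (O) for the metric `e^{2 ε u} g₀`. -/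
theorem key {M : ℝ} (hu : Good uu M) {ε μ : ℝ} (hε : 0 < ε) (hμdef : μ = ε * M)
    (hμ : μ ≤ 1 / 1000) (hO : PropertyO (fun p => ε * uu p)) :
    ∃ y τ n w : E3, Fr y τ n ∧ ‖w‖ ≤ 50 * M ∧ ∀ a b : ℝ, a ^ 2 + b ^ 2 = 1 →
      |PP y (a • τ + b • n) - ⟪w, a • τ + b • n⟫| ≤ 20500 * M * μ := by
  obtain ⟨x, hx, y, hy, hxy, -, γ₁, γ₂, h₁, h₂, hang⟩ := hO
  rw [mem_sphere_zero_iff_norm] at hx hy
  obtain ⟨hsmall, hlow⟩ := lower hu hε hμdef hμ hx hy hxy h₁ h₂ hang
  obtain ⟨τ, hτ, hyτ⟩ := exists_tangent y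
  obtain ⟨n, hF⟩ := exists_frame hy hτ hyτ
  have hM := hu.one_le
  have hμ0 : 0 < μ := by rw [hμdef]; positivity
  refine ⟨y, τ, n, ε⁻¹ • (x + y), hF, ?_, ?_⟩
  · rw [norm_smul, norm_inv, Real.norm_eq_abs, abs_of_pos hε]
    rw [inv_mul_le_iff₀ hε]
    refine hsmall.trans (le_of_eq ?_)
    rw [hμdef]; ring
  · intro a b hab
    set e : E3 := a • τ + b • n with he
    have hττ : ⟪τ, τ⟫ = 1 := by rw [real_inner_self_eq_norm_sq, hF.hτ]; norm_num
    have hnn : ⟪n, n⟫ = 1 := by rw [real_inner_self_eq_norm_sq, hF.hn]; norm_num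
    have hnτ : ⟪n, τ⟫ = 0 := by rw [real_inner_comm]; exact hF.hτn
    have he1 : ‖e‖ = 1 := by
      have h1 : ‖e‖ ^ 2 = 1 ^ 2 := by
        rw [← real_inner_self_eq_norm_sq, he]
        simp only [inner_add_left, inner_add_right, inner_smul_left, inner_smul_right, hττ, hnn,
          hnτ, hF.hτn, RCLike.conj_to_real]
        linarith
      exact (pow_left_inj₀ (norm_nonneg _) zero_le_one two_ne_zero).1 h1
    have hye : ⟪y, e⟫ = 0 := by
      rw [he, inner_add_right, inner_smul_right, inner_smul_right, hF.hyτ, hF.hyn]; ring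
    have u1 := upper hu hε hμdef hμ hx hy he1 hye hsmall
    have u2 := upper hu hε hμdef hμ hx hy (e := -e) (by rw [norm_neg, he1])
      (by rw [inner_neg_right, hye, neg_zero]) hsmall
    rw [integral_odd hu, inner_neg_right] at u2
    have hPP := PP_eq y e
    rw [inner_smul_left, RCLike.conj_to_real]
    set I := ∫ t in (0 : ℝ)..1, uu (gc y e (Real.pi * t)) with hI
    rw [← hPP]
    have hw : ⟪x + y, e⟫ = ε * (ε⁻¹ * ⟪x + y, e⟫) := by field_simp
    set W := ε⁻¹ * ⟪x + y, e⟫ with hW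
    rw [hw] at u1 u2
    have k1 : -(20500 * μ ^ 2) ≤ ε * (Real.pi * I - W) := by nlinarith
    have k2 : ε * (Real.pi * I - W) ≤ 20500 * μ ^ 2 := by nlinarith
    have k3 : 20500 * μ ^ 2 = ε * (20500 * M * μ) := by rw [hμdef]; ring
    rw [k3] at k1 k2
    rw [abs_le]
    constructor
    · have : ε * (-(20500 * M * μ)) ≤ ε * (Real.pi * I - W) := by linarith
      exact le_of_mul_le_mul_left this hε
    · exact le_of_mul_le_mul_left k2 hε

end Pool.Agent.V11191.Opp
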