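import Mathlib
import Pool.Agent.V11191.Opp.Main

open scoped RealInnerProductSpace Topology Interval
open MeasureTheory

namespace Pool.Agent.V11191.Opp

theorem main1 {M : ℝ} (hM : Good uu M) (hcon : ∀ (φ : E3 → ℝ), ContDiff ℝ (⊤ : ℕ∞) φ → PropertyO φ) :  ∀ k : ℕ, ∃ y τ n w : E3, Fr y τ n ∧ ‖w‖ ≤ 50 * M ∧ ∀ a b : ℝ, a ^ 2 + b ^ 2 = 1 →
      |PP y (a • τ + b • n) - ⟪w, a • τ + b • n⟫| ≤ 20500 * M * (1 / 1000 * (1 / ((k : ℝ) + 1))) := by
    intro k
    have hM1 := hM.one_le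
    have hM0 : 0 < M := by linarith
    have hk : (0 : ℝ) < (k : ℝ) + 1 := by positivity
    have hε : 0 < 1 / 1000 * (1 / ((k : ℝ) + 1)) / M := by positivity
    have hμ : 1 / 1000 * (1 / ((k : ℝ) + 1)) = 1 / 1000 * (1 / ((k : ℝ) + 1)) / M * M := by
      field_simp
    have h3 : 1 / 1000 * (1 / ((k : ℝ) + 1)) ≤ 1 / 1000 := by
      have : 1 / ((k : ℝ) + 1) ≤ 1 := by
        rw [div_le_one hk]; linarith [(Nat.cast_nonneg k : (0 : ℝ) ≤ k)]
      linarith
    exact key hM hε hμ h3 (hcon _ (contDiff_const.mul uu_smooth))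

theorem subseq4 {R : ℝ} {y τ n w : ℕ → E3} (hy : ∀ k, ‖y k‖ ≤ 1) (hτ : ∀ k, ‖τ k‖ ≤ 1)
    (hn : ∀ k, ‖n k‖ ≤ 1) (hw : ∀ k, ‖w k‖ ≤ R) :
    ∃ (Y T N W : E3) (s : ℕ → ℕ), StrictMono s ∧
      Filter.Tendsto (fun k => y (s k)) Filter.atTop (𝓝 Y) ∧
      Filter.Tendsto (fun k => τ (s k)) Filter.atTop (𝓝 T) ∧
      Filter.Tendsto (fun k => n (s k)) Filter.atTop (𝓝 N) ∧
      Filter.Tendsto (fun k => w (s k)) Filter.atTop (𝓝 W) := by
  obtain ⟨Y, -, s1, hs1, h1⟩ := (isCompact_closedBall (0 : E3) 1).tendsto_subseq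
    (x := y) (fun k => by simpa using hy k)
  obtain ⟨T, -, s2, hs2, h2⟩ := (isCompact_closedBall (0 : E3) 1).tendsto_subseq
    (x := fun k => τ (s1 k)) (fun k => by simpa using hτ _)
  obtain ⟨N, -, s3, hs3, h3⟩ := (isCompact_closedBall (0 : E3) 1).tendsto_subseq
    (x := fun k => n (s1 (s2 k))) (fun k => by simpa using hn _)
  obtain ⟨W, -, s4, hs4, h4⟩ := (isCompact_closedBall (0 : E3) R).tendsto_subseq
    (x := fun k => w (s1 (s2 (s3 k)))) (fun k => by simpa using hw _)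
  refine ⟨Y, T, N, W, fun k => s1 (s2 (s3 (s4 k))), hs1.comp (hs2.comp (hs3.comp hs4)),
    ?_, ?_, ?_, h4⟩
  · exact h1.comp ((hs2.comp (hs3.comp hs4)).tendsto_atTop)
  · exact h2.comp ((hs3.comp hs4).tendsto_atTop)
  · exact h3.comp (hs4.tendsto_atTop)

theorem PP_tendsto {f g : ℕ → E3} {Y e : E3} (hf : Filter.Tendsto f Filter.atTop (𝓝 Y))
    (hg : Filter.Tendsto g Filter.atTop (𝓝 e)) :
    Filter.Tendsto (fun k => PP (f k) (g k)) Filter.atTop (𝓝 (PP Y e)) := by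
  have hi : ∀ (h : ℕ → E3) (L : E3), Filter.Tendsto h Filter.atTop (𝓝 L) → ∀ i : Fin 3,
      Filter.Tendsto (fun k => h k i) Filter.atTop (𝓝 (L i)) := by
    intro h L hL i
    have hc : Continuous (fun p : E3 => p i) := by fun_prop
    exact (hc.tendsto L).comp hL
  unfold PP
  refine tendsto_finsetSum _ fun i _ => ?_
  have h1 := hi f Y hf i
  have h2 := hi g e hg i
  exact (((h2.pow 5).const_mul _).add ((((h1.pow 2).const_mul _).add_const _).mul (h2.pow 3))).add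
    ((((h1.pow 4).const_mul _).add ((h1.pow 2).const_mul _)).mul h2)

theorem main2 {M : ℝ} {y τ n w : ℕ → E3} (hF : ∀ k, Fr (y k) (τ k) (n k))
    (hw : ∀ k, ‖w k‖ ≤ 50 * M)
    (hb : ∀ k : ℕ, ∀ a b : ℝ, a ^ 2 + b ^ 2 = 1 →
      |PP (y k) (a • τ k + b • n k) - ⟪w k, a • τ k + b • n k⟫| ≤
        20500 * M * (1 / 1000 * (1 / ((k : ℝ) + 1)))) : False := by
  obtain ⟨Y, T, Nn, W, s, hs, hy', hτ', hn', hw'⟩ := subseq4 (fun k => (hF k).hy.le)
    (fun k => (hF k).hτ.le) (fun k => (hF k).hn.le) hw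
  have hlimF : Fr Y T Nn := by
    refine ⟨?_, ?_, ?_, ?_, ?_, ?_⟩
    · exact tendsto_nhds_unique hy'.norm (by simp only [(hF _).hy]; exact tendsto_const_nhds)
    · exact tendsto_nhds_unique hτ'.norm (by simp only [(hF _).hτ]; exact tendsto_const_nhds)
    · exact tendsto_nhds_unique hn'.norm (by simp only [(hF _).hn]; exact tendsto_const_nhds)
    · exact tendsto_nhds_unique (hy'.inner hτ')
        (by simp only [(hF _).hyτ]; exact tendsto_const_nhds)
    · exact tendsto_nhds_unique (hy'.inner hn')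
        (by simp only [(hF _).hyn]; exact tendsto_const_nhds)
    · exact tendsto_nhds_unique (hτ'.inner hn')
        (by simp only [(hF _).hτn]; exact tendsto_const_nhds)
  refine PP_not_linear (w := W) hlimF ?_
  intro a b hab
  have he : Filter.Tendsto (fun k => a • τ (s k) + b • n (s k)) Filter.atTop
      (𝓝 (a • T + b • Nn)) := (hτ'.const_smul a).add (hn'.const_smul b)
  have hP : Filter.Tendsto (fun k => PP (y (s k)) (a • τ (s k) + b • n (s k))) Filter.atTop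
      (𝓝 (PP Y (a • T + b • Nn))) :=
    PP_tendsto hy' he
  have hin := hw'.inner (𝕜 := ℝ) he
  have h0 : Filter.Tendsto (fun k => 20500 * M * (1 / 1000 * (1 / ((s k : ℝ) + 1))))
      Filter.atTop (𝓝 0) := by
    have h1 : Filter.Tendsto (fun k : ℕ => 1 / ((k : ℝ) + 1)) Filter.atTop (𝓝 0) :=
      tendsto_one_div_add_atTop_nhds_zero_nat
    have h2 := (h1.comp hs.tendsto_atTop).const_mul (20500 * M * (1 / 1000))
    rw [mul_zero] at h2
    refine h2.congr fun k => ?_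
    rw [Function.comp_apply]
    ring
  have hdiff := (hP.sub hin).abs
  have hle : |PP Y (a • T + b • Nn) - ⟪W, a • T + b • Nn⟫| ≤ 0 :=
    le_of_tendsto_of_tendsto' hdiff h0 fun k => hb (s k) a b hab
  have := abs_nonpos_iff.1 hle
  linarith

theorem main : ∃ φ : E3 → ℝ, ContDiff ℝ (⊤ : ℕ∞) φ ∧ ¬ PropertyO φ := by
  by_contra hcon
  push Not at hcon
  obtain ⟨M, hM⟩ := exists_good (uu_smooth.of_le (by simp)) uu_odd
  choose y τ n w hF hw hb using main1 hM hcon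
  exact main2 hF hw hb

end Pool.Agent.V11191.Opp
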